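import Mathlib

/-!
The circle is a finite CW complex.
-/

namespace Pool.Agent.P.MP_510dd6_gt

open Set Metric Real

noncomputable section

/-- the zero cell -/
def cell0 : PartialEquiv (Fin 0 → ℝ) Circle where
  toFun _ := Circle.exp π
  invFun _ := 0
  source := ball 0 1
  target := {Circle.exp π}
  map_source' _ _ := rfl
  map_target' _ _ := mem_ball_self one_pos
  left_inv' _ _ := Subsingleton.elim _ _
  right_inv' _ h := h.symm

lemma mem_ball_fin_one (x : Fin 1 → ℝ) : x ∈ ball (0 : Fin 1 → ℝ) 1 ↔ |x 0| < 1 := by
  rw [mem_ball_zero_iff, pi_norm_lt_iff one_pos, Fin.forall_fin_one, Real.norm_eq_abs]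

lemma mem_closedBall_fin_one (x : Fin 1 → ℝ) :
    x ∈ closedBall (0 : Fin 1 → ℝ) 1 ↔ |x 0| ≤ 1 := by
  rw [mem_closedBall_zero_iff, pi_norm_le_iff_of_nonneg zero_le_one, Fin.forall_fin_one,
    Real.norm_eq_abs]

lemma arg_exp_mul {t : ℝ} (h : |t| < 1) : Complex.arg (Circle.exp (π * t)) = π * t := by
  rw [abs_lt] at h
  have := pi_pos
  exact Circle.arg_exp (by nlinarith) (by nlinarith)

lemma abs_arg_div_le (z : Circle) : |Complex.arg z / π| ≤ 1 := by
  rw [abs_div, abs_of_pos pi_pos, div_le_one pi_pos]
  exact Complex.abs_arg_le_pi _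

/-- the one cell -/
def cell1 : PartialEquiv (Fin 1 → ℝ) Circle where
  toFun x := Circle.exp (π * x 0)
  invFun z := fun _ => Complex.arg z / π
  source := ball 0 1
  target := {z | Complex.arg z ≠ π}
  map_source' x hx := by
    rw [mem_ball_fin_one] at hx
    simp only [mem_ofPred_eq, arg_exp_mul hx]
    have := pi_pos
    have := (abs_lt.mp hx).2
    nlinarith
  map_target' z hz := by
    rw [mem_ball_fin_one, abs_div, abs_of_pos pi_pos, div_lt_one pi_pos, abs_lt]
    exact ⟨Complex.neg_pi_lt_arg _, lt_of_le_of_ne (Complex.arg_le_pi _) hz⟩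
  left_inv' x hx := by
    rw [mem_ball_fin_one] at hx
    funext i
    rw [arg_exp_mul hx, Subsingleton.elim i 0]
    field_simp
  right_inv' z _ := by
    simp only
    rw [mul_div_cancel₀ _ pi_ne_zero, Circle.exp_arg]

/-- the characteristic maps -/
def cellMap : (n : ℕ) → PLift (n < 2) → PartialEquiv (Fin n → ℝ) Circle
  | 0, _ => cell0
  | 1, _ => cell1
  | _ + 2, h => absurd h.down (by omega)

theorem circle_cw : ∃ _ : Topology.CWComplex (univ : Set Circle),
    Topology.CWComplex.Finite (univ : Set Circle) := by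
  refine ⟨_, Topology.CWComplex.finite_mkFinite univ (fun n => PLift (n < 2)) cellMap ?_ ?_ ?_ ?_
    ?_ ?_ ?_ ?_⟩
  · filter_upwards [Filter.eventually_ge_atTop 2] with n hn
    exact ⟨fun h => absurd h.down (by omega)⟩
  · intro n
    infer_instance
  · rintro (_ | _ | n) h
    · rfl
    · rfl
    · exact absurd h.down (by omega)
  · rintro (_ | _ | n) h
    · exact continuousOn_const
    · change ContinuousOn (fun x : Fin 1 → ℝ => Circle.exp (π * x 0)) _
      fun_prop
    · exact absurd h.down (by omega)
  · rintro (_ | _ | n) h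
    · exact continuousOn_const
    · change ContinuousOn (fun (z : Circle) (_ : Fin 1) => Complex.arg z / π)
        {z | Complex.arg z ≠ π}
      refine continuousOn_pi.mpr fun _ => ContinuousOn.div_const (fun z hz => ?_) _
      refine ContinuousAt.continuousWithinAt ?_
      exact (Complex.continuousAt_arg (Complex.mem_slitPlane_iff_arg.mpr
        ⟨hz, z.coe_ne_zero⟩)).comp (f := fun z : Circle => (z : ℂ)) (by fun_prop)
    · exact absurd h.down (by omega)
  · have key : Disjoint (cell0 '' ball 0 1) (cell1 '' ball 0 1) := by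
      rw [Set.disjoint_left]
      rintro _ ⟨x, _, rfl⟩ ⟨y, hy, h⟩
      have h1 : Complex.arg (cell1 y) ≠ π := cell1.map_source hy
      rw [h] at h1
      exact h1 (Circle.arg_exp (by linarith [pi_pos]) le_rfl)
    rintro ⟨(_ | _ | n), h⟩ _ ⟨(_ | _ | m), h'⟩ _ hne
    · exact absurd (by rw [Subsingleton.elim h h']) hne
    · exact key
    · exact absurd h'.down (by omega)
    · exact key.symm
    · exact absurd (by rw [Subsingleton.elim h h']) hne
    · exact absurd h'.down (by omega)
    all_goals exact absurd h.down (by omega)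
  · rintro (_ | _ | n) h
    · intro x hx
      rw [Subsingleton.elim x 0, mem_sphere, dist_self] at hx
      exact absurd hx zero_ne_one
    · intro x hx
      simp only [mem_iUnion]
      refine ⟨0, by omega, ⟨by omega⟩, 0, mem_closedBall_self zero_le_one, ?_⟩
      have h1 : |x 0| = 1 := by
        apply le_antisymm ((mem_closedBall_fin_one x).mp (sphere_subset_closedBall hx))
        by_contra h2
        have := (mem_ball_fin_one x).mpr (not_le.mp h2)
        rw [mem_sphere] at hx
        rw [mem_ball] at this
        exact this.ne hx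
      change Circle.exp π = Circle.exp (π * x 0)
      rcases abs_eq_abs.mp (h1.trans abs_one.symm) with h2 | h2
      · rw [h2, mul_one]
      · rw [h2, Circle.exp_eq_exp]
        exact ⟨1, by push_cast; ring⟩
    · exact absurd h.down (by omega)
  · rw [eq_univ_iff_forall]
    intro z
    simp only [mem_iUnion]
    refine ⟨1, ⟨by omega⟩, fun _ => Complex.arg z / π,
      (mem_closedBall_fin_one _).mpr (abs_arg_div_le z), ?_⟩
    change Circle.exp (π * (Complex.arg z / π)) = z
    rw [mul_div_cancel₀ _ pi_ne_zero, Circle.exp_arg]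

end

end Pool.Agent.P.MP_510dd6_gt
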