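import Pool.Agent.P.MP_510dd6_gt.Heis

/-!
The flag complex of the cover as a set of finitely supported weight functions.
-/

namespace Pool.Agent.P.MP_510dd6_gt

open Set

noncomputable section

/-- weight functions -/
abbrev PP : Type := W → ℝ

/-- the simplex spanned by a finite set -/
def Sx (S : Finset W) : Set PP :=
  {p | (∀ x, 0 ≤ p x) ∧ (∀ x, x ∉ S → p x = 0) ∧ ∑ x ∈ S, p x = 1}

/-- cliques -/
def Clq (S : Finset W) : Prop := ∀ x ∈ S, ∀ y ∈ S, adj x y

/-- the finite subcomplex spanned by a finite set -/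
def KF (F : Finset W) : Set PP := {p | ∃ S ⊆ F, Clq S ∧ p ∈ Sx S}

/-- continuous maps into a finite subcomplex -/
def Good {A : Type} [TopologicalSpace A] (f : A → PP) (D : Set A) : Prop :=
  ContinuousOn f D ∧ ∃ F, MapsTo f D (KF F)

lemma isClosed_Sx (S : Finset W) : IsClosed (Sx S) := by
  have : Sx S = (⋂ x, {p : PP | 0 ≤ p x}) ∩ ((⋂ x, ⋂ (_ : x ∉ S), {p : PP | p x = 0}) ∩
      {p | ∑ x ∈ S, p x = 1}) := by
    ext p; simp [Sx]
  rw [this]
  refine IsClosed.inter (isClosed_iInter fun x => isClosed_le (by fun_prop) (by fun_prop))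
    (IsClosed.inter (isClosed_iInter fun x => isClosed_iInter fun _ =>
      isClosed_eq (by fun_prop) (by fun_prop)) (isClosed_eq (by fun_prop) (by fun_prop)))

lemma sum_eq_of_vanish {S S' : Finset W} (p : PP) (u : W → ℝ) (h : ∀ x, x ∉ S → p x = 0)
    (h' : ∀ x, x ∉ S' → p x = 0) : ∑ x ∈ S, p x * u x = ∑ x ∈ S', p x * u x := by
  exact (Finset.sum_subset (Finset.subset_union_left (s₁ := S) (s₂ := S'))
      (fun x _ hx => by simp [h x hx])).trans
    (Finset.sum_subset (Finset.subset_union_right (s₁ := S) (s₂ := S'))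
      (fun x _ hx => by simp [h' x hx])).symm

lemma Sx_of_vanish {S S' : Finset W} {p : PP} (hp : p ∈ Sx S) (h' : ∀ x, x ∉ S' → p x = 0) :
    p ∈ Sx S' := by
  refine ⟨hp.1, h', ?_⟩
  have := sum_eq_of_vanish p (fun _ => 1) hp.2.1 h'
  simp only [mul_one] at this
  rw [← this, hp.2.2]

lemma Sx_mono {S S' : Finset W} (h : S ⊆ S') : Sx S ⊆ Sx S' :=
  fun _ hp => Sx_of_vanish hp (fun x hx => hp.2.1 x (fun h' => hx (h h')))

lemma Sx_nonempty {S : Finset W} {p : PP} (hp : p ∈ Sx S) : S.Nonempty := by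
  rcases S.eq_empty_or_nonempty with rfl | h
  · have := hp.2.2
    simp at this
  · exact h

lemma Sx_comb {S : Finset W} {p q : PP} (hp : p ∈ Sx S) (hq : q ∈ Sx S) {a b : ℝ} (ha : 0 ≤ a)
    (hb : 0 ≤ b) (hab : a + b = 1) : a • p + b • q ∈ Sx S := by
  refine ⟨fun x => ?_, fun x hx => ?_, ?_⟩
  · have := hp.1 x
    have := hq.1 x
    simp only [Pi.add_apply, Pi.smul_apply, smul_eq_mul]
    positivity
  · simp [hp.2.1 x hx, hq.2.1 x hx]
  · simp only [Pi.add_apply, Pi.smul_apply, smul_eq_mul, Finset.sum_add_distrib,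
      ← Finset.mul_sum, hp.2.2, hq.2.2]
    linarith

/-- the vertex -/
def dl (x : W) : PP := Pi.single x 1

lemma dl_mem {S : Finset W} {x : W} (hx : x ∈ S) : dl x ∈ Sx S := by
  refine ⟨fun y => ?_, fun y hy => ?_, ?_⟩
  · by_cases h : y = x
    · subst h; simp [dl]
    · simp [dl, Pi.single_eq_of_ne h]
  · have h : y ≠ x := by rintro rfl; exact hy hx
    simp [dl, Pi.single_eq_of_ne h]
  · simp [dl, Finset.sum_pi_single', hx]

/-- combination of vertices -/
def cmb {ι : Type} (s : Finset ι) (v : ι → W) (w : ι → ℝ) : PP := ∑ i ∈ s, w i • dl (v i)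

lemma cmb_mem {ι : Type} {s : Finset ι} {v : ι → W} {w : ι → ℝ} {S : Finset W}
    (h0 : ∀ i ∈ s, 0 ≤ w i) (h1 : ∑ i ∈ s, w i = 1) (hv : ∀ i ∈ s, w i ≠ 0 → v i ∈ S) :
    cmb s v w ∈ Sx S := by
  refine ⟨fun x => ?_, fun x hx => ?_, ?_⟩
  · simp only [cmb, Finset.sum_apply, Pi.smul_apply, smul_eq_mul]
    exact Finset.sum_nonneg fun i hi =>
      mul_nonneg (h0 i hi) ((dl_mem (Finset.mem_singleton_self (v i))).1 x)
  · simp only [cmb, Finset.sum_apply, Pi.smul_apply, smul_eq_mul]
    refine Finset.sum_eq_zero fun i hi => ?_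
    by_cases h : w i = 0
    · simp [h]
    · rw [(dl_mem (hv i hi h)).2.1 x hx, mul_zero]
  · simp only [cmb, Finset.sum_apply, Pi.smul_apply, smul_eq_mul]
    rw [Finset.sum_comm, ← h1]
    refine Finset.sum_congr rfl fun i hi => ?_
    by_cases h : w i = 0
    · simp [h]
    · rw [← Finset.mul_sum, (dl_mem (hv i hi h)).2.2, mul_one]

lemma continuous_cmb {ι : Type} (s : Finset ι) (v : ι → W) : Continuous (cmb s v) := by
  unfold cmb
  fun_prop

lemma KF_mono {F F' : Finset W} (h : F ⊆ F') : KF F ⊆ KF F' :=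
  fun _ ⟨S, h1, h2⟩ => ⟨S, h1.trans h, h2⟩

lemma Clq.mono {S S' : Finset W} (h : Clq S') (h' : S ⊆ S') : Clq S :=
  fun x hx y hy => h x (h' hx) y (h' hy)

section good
variable {A : Type} [TopologicalSpace A] {f g : A → PP} {D D' : Set A}

lemma Good.congr (h : Good f D) (e : EqOn g f D) : Good g D :=
  ⟨h.1.congr e, h.2.imp fun _ hF => hF.congr e.symm⟩

lemma Good.mono (h : Good f D) (e : D' ⊆ D) : Good f D' :=
  ⟨h.1.mono e, h.2.imp fun _ hF => hF.mono_left e⟩

lemma Good.union (h : Good f D) (h' : Good f D') (c : IsClosed D) (c' : IsClosed D') :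
    Good f (D ∪ D') := by
  obtain ⟨h1, F, hF⟩ := h
  obtain ⟨h2, F', hF'⟩ := h'
  exact ⟨h1.union_of_isClosed h2 c c', F ∪ F',
    (hF.mono_right (KF_mono Finset.subset_union_left)).union
      (hF'.mono_right (KF_mono Finset.subset_union_right))⟩

lemma Good.biUnion {ι : Type} (s : Finset ι) (E : ι → Set A) (h : ∀ i ∈ s, Good f (E i))
    (c : ∀ i ∈ s, IsClosed (E i)) : Good f (⋃ i ∈ s, E i) := by
  classical
  induction s using Finset.induction_on with
  | empty => exact ⟨by simp, ∅, fun x hx => by simp at hx⟩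
  | insert i s hi ih =>
    rw [Finset.set_biUnion_insert]
    refine Good.union (h i (Finset.mem_insert_self _ _))
      (ih (fun j hj => h j (Finset.mem_insert_of_mem hj))
        (fun j hj => c j (Finset.mem_insert_of_mem hj))) (c i (Finset.mem_insert_self _ _)) ?_
    exact isClosed_biUnion_finset (fun j hj => c j (Finset.mem_insert_of_mem hj))

lemma Good.comp {B : Type} [TopologicalSpace B] {u : B → A} {E : Set B} (h : Good f D)
    (hu : ContinuousOn u E) (hm : MapsTo u E D) : Good (f ∘ u) E :=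
  ⟨h.1.comp hu hm, h.2.imp fun _ hF => hF.comp hm⟩

end good

/-- deck transformations on weight functions -/
def T (m : ℤ) (p : PP) : PP := fun x => p (tr (-m) x)

lemma continuous_T (m : ℤ) : Continuous (T m) := by
  unfold T
  fun_prop

@[simp] lemma T_zero (p : PP) : T 0 p = p := by ext x; simp [T]

lemma T_T (m k : ℤ) (p : PP) : T m (T k p) = T (m + k) p := by
  ext x
  simp only [T, tr_tr]
  congr 2
  ring

@[simp] lemma T_tr (m : ℤ) (p : PP) (x : W) : T m p (tr m x) = p x := by simp [T, tr_tr]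

lemma mem_image_tr {m : ℤ} {S : Finset W} {x : W} : x ∈ S.image (tr m) ↔ tr (-m) x ∈ S := by
  rw [Finset.mem_image]
  constructor
  · rintro ⟨y, hy, rfl⟩
    simpa [tr_tr] using hy
  · intro h
    exact ⟨_, h, by simp [tr_tr]⟩

lemma T_mem (m : ℤ) {S : Finset W} {p : PP} (hp : p ∈ Sx S) : T m p ∈ Sx (S.image (tr m)) := by
  refine ⟨fun x => hp.1 _, fun x hx => hp.2.1 _ (fun h => hx (mem_image_tr.mpr h)), ?_⟩
  rw [Finset.sum_image (fun x _ y _ h => tr_injective m h)]
  simpa using hp.2.2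

lemma Clq.image (m : ℤ) {S : Finset W} (h : Clq S) : Clq (S.image (tr m)) := by
  intro x hx y hy
  obtain ⟨u, hu, rfl⟩ := Finset.mem_image.mp hx
  obtain ⟨v, hv, rfl⟩ := Finset.mem_image.mp hy
  exact adj_tr m (h u hu v hv)

lemma card_image_tr (m : ℤ) (S : Finset W) : (S.image (tr m)).card = S.card :=
  Finset.card_image_of_injective _ (tr_injective m)

lemma Good.T {A : Type} [TopologicalSpace A] {f : A → PP} {D : Set A} (h : Good f D) (m : ℤ) :
    Good (fun a => T m (f a)) D := by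
  obtain ⟨h1, F, hF⟩ := h
  refine ⟨(continuous_T m).comp_continuousOn h1, F.image (tr m), fun a ha => ?_⟩
  obtain ⟨S, hS, hc, hp⟩ := hF ha
  exact ⟨S.image (tr m), Finset.image_subset_image hS, hc.image m, T_mem m hp⟩

lemma T_dl (m : ℤ) (x : W) : T m (dl x) = dl (tr m x) := by
  ext y
  by_cases h : y = tr m x
  · subst h; simp [dl]
  · have : tr (-m) y ≠ x := by
      rintro rfl
      exact h (by simp [tr_tr])
    simp [T, dl, Pi.single_eq_of_ne h, Pi.single_eq_of_ne this]

lemma T_add (m : ℤ) (p q : PP) : T m (p + q) = T m p + T m q := rfl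
lemma T_smul (m : ℤ) (a : ℝ) (p : PP) : T m (a • p) = a • T m p := rfl

lemma T_cmb (m : ℤ) {ι : Type} (s : Finset ι) (v : ι → W) (w : ι → ℝ) :
    T m (cmb s v w) = cmb s (fun i => tr m (v i)) w := by
  ext x
  simp only [cmb, ← T_dl, T, Finset.sum_apply, Pi.smul_apply]

/-- Every finite subcomplex contracts inside a larger finite subcomplex. -/
lemma exists_null (F : Finset W) : ∃ (N : PP × ℝ → PP) (c : PP) (F' : Finset W), Continuous N ∧
    (∀ p, N (p, 0) = p) ∧ (∀ p s, 1 ≤ s → N (p, s) = c) ∧ c ∈ KF F' ∧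
      ∀ p ∈ KF F, ∀ s, 0 ≤ s → N (p, s) ∈ KF F' := by
  obtain ⟨φ, c, h1, h2⟩ := exists_move F
  refine ⟨fun y => max 0 (1 - 2 * y.2) • y.1 +
      (1 - max 0 (1 - 2 * y.2) - min 1 (max 0 (2 * y.2 - 1))) • cmb F φ y.1 +
      min 1 (max 0 (2 * y.2 - 1)) • dl c, dl c, insert c (F ∪ F.image φ), ?_, ?_, ?_, ?_, ?_⟩
  · have := continuous_cmb F φ
    fun_prop
  · intro p
    norm_num
  · intro p s hs
    have e1 : max 0 (1 - 2 * s) = 0 := max_eq_left (by linarith)
    have e2 : min 1 (max 0 (2 * s - 1)) = 1 := min_eq_left (le_max_of_le_right (by linarith))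
    simp [e1, e2]
  · refine ⟨{c}, by simp, ?_, dl_mem (Finset.mem_singleton_self c)⟩
    intro x hx y hy
    rw [Finset.mem_singleton] at hx hy
    rw [hx, hy]
    exact adj_refl _
  · rintro p ⟨S, hS, hc, hp⟩ s hs
    have hq : cmb F φ p ∈ Sx (S.image φ) := by
      refine cmb_mem (fun i _ => hp.1 i) (Sx_mono hS hp).2.2 (fun i _ hi => ?_)
      apply Finset.mem_image_of_mem
      by_contra h
      exact hi (hp.2.1 i h)
    rcases le_total s (1 / 2) with h | h
    · have e1 : max 0 (1 - 2 * s) = 1 - 2 * s := max_eq_right (by linarith)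
      have e2 : min 1 (max 0 (2 * s - 1)) = 0 := by
        rw [max_eq_left (by linarith), min_eq_right (by norm_num)]
      refine ⟨S ∪ S.image φ, ?_, ?_, ?_⟩
      · exact (Finset.union_subset_union hS (Finset.image_subset_image hS)).trans
          (Finset.subset_insert _ _)
      · intro x hx y hy
        rcases Finset.mem_union.mp hx with hx | hx <;> rcases Finset.mem_union.mp hy with hy | hy
        · exact hc x hx y hy
        · obtain ⟨v, hv, rfl⟩ := Finset.mem_image.mp hy
          exact (h1 x (hS hx) v (hS hv) (hc x hx v hv)).1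
        · obtain ⟨u, hu, rfl⟩ := Finset.mem_image.mp hx
          exact adj_symm (h1 y (hS hy) u (hS hu) (hc y hy u hu)).1
        · obtain ⟨u, hu, rfl⟩ := Finset.mem_image.mp hx
          obtain ⟨v, hv, rfl⟩ := Finset.mem_image.mp hy
          exact (h1 u (hS hu) v (hS hv) (hc u hu v hv)).2
      · simp only [e1, e2, zero_smul, add_zero]
        exact Sx_comb (Sx_mono Finset.subset_union_left hp)
          (Sx_mono Finset.subset_union_right hq) (by linarith) (by linarith) (by ring)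
    · have e1 : max 0 (1 - 2 * s) = 0 := max_eq_left (by linarith)
      refine ⟨insert c (S.image φ), ?_, ?_, ?_⟩
      · exact Finset.insert_subset_insert _
          ((Finset.image_subset_image hS).trans Finset.subset_union_right)
      · intro x hx y hy
        rcases Finset.mem_insert.mp hx with hx | hx <;> rcases Finset.mem_insert.mp hy with hy | hy
        · rw [hx, hy]; exact adj_refl _
        · obtain ⟨v, hv, rfl⟩ := Finset.mem_image.mp hy
          rw [hx]
          exact adj_symm (h2 v (hS hv))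
        · obtain ⟨u, hu, rfl⟩ := Finset.mem_image.mp hx
          rw [hy]
          exact h2 u (hS hu)
        · obtain ⟨u, hu, rfl⟩ := Finset.mem_image.mp hx
          obtain ⟨v, hv, rfl⟩ := Finset.mem_image.mp hy
          exact (h1 u (hS hu) v (hS hv) (hc u hu v hv)).2
      · simp only [e1, zero_smul, zero_add]
        exact Sx_comb (Sx_mono (Finset.subset_insert _ _) hq) (dl_mem (Finset.mem_insert_self _ _))
          (by have := min_le_left 1 (max 0 (2 * s - 1)); linarith)
          (le_min zero_le_one (le_max_left _ _)) (by ring)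

/-- the boundary of the prism over a simplex -/
def Bd (S : Finset W) : Set (PP × ℝ) :=
  {y | y ∈ Sx S ×ˢ Icc (0 : ℝ) 1 ∧ ((∃ x ∈ S, y.1 x = 0) ∨ y.2 = 0 ∨ y.2 = 1)}

/-- Extension from the boundary of a prism. -/
lemma exists_ext (S : Finset W) (hS : S.Nonempty) (f : PP × ℝ → PP) (hf : Good f (Bd S)) :
    ∃ Φ : PP × ℝ → PP, Good Φ (Sx S ×ˢ Icc (0 : ℝ) 1) ∧ EqOn Φ f (Bd S) := by
  obtain ⟨hf, F, hF⟩ := hf
  obtain ⟨N, c, F', hN, hN0, hN1, hc, hNF⟩ := exists_null F
  have hcard : (0 : ℝ) < S.card := by exact_mod_cast hS.card_pos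
  let μ : PP × ℝ → ℝ := fun y =>
    min (S.inf' hS fun x => (S.card : ℝ) * y.1 x) (min (2 * y.2) (2 * (1 - y.2)))
  have hμ : Continuous μ := by
    refine Continuous.min ?_ (by fun_prop)
    exact Continuous.finset_inf'_apply hS (fun x _ => by fun_prop)
  let bary : PP := fun x => if x ∈ S then (S.card : ℝ)⁻¹ else 0
  let r : PP × ℝ → PP × ℝ := fun y =>
    ((max (1 - μ y) (1 / 2))⁻¹ • (y.1 - μ y • bary), (max (1 - μ y) (1 / 2))⁻¹ * (y.2 - μ y / 2))
  have hr : Continuous r := by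
    have : Continuous fun y => (max (1 - μ y) (1 / 2))⁻¹ :=
      Continuous.inv₀ (by fun_prop) (fun y => (lt_max_of_lt_right (by norm_num)).ne')
    fun_prop
  have μ1 : ∀ y, ∀ x ∈ S, μ y ≤ S.card * y.1 x := fun y x hx =>
    (min_le_left _ _).trans (Finset.inf'_le _ hx)
  have μ2 : ∀ y, μ y ≤ 2 * y.2 := fun y => (min_le_right _ _).trans (min_le_left _ _)
  have μ3 : ∀ y, μ y ≤ 2 * (1 - y.2) := fun y => (min_le_right _ _).trans (min_le_right _ _)
  have μ0 : ∀ y ∈ Sx S ×ˢ Icc (0 : ℝ) 1, 0 ≤ μ y := by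
    rintro y ⟨h1, h2, h3⟩
    refine le_min ?_ (le_min (by linarith) (by linarith))
    exact (Finset.le_inf'_iff _ _).mpr fun x _ => mul_nonneg hcard.le (h1.1 x)
  have μc : ∀ y, (∃ x ∈ S, μ y = S.card * y.1 x) ∨ μ y = 2 * y.2 ∨ μ y = 2 * (1 - y.2) := by
    intro y
    rcases min_choice (S.inf' hS fun x => (S.card : ℝ) * y.1 x)
      (min (2 * y.2) (2 * (1 - y.2))) with h | h
    · obtain ⟨x, hx, e⟩ := Finset.exists_mem_eq_inf' hS fun x => (S.card : ℝ) * y.1 x
      exact Or.inl ⟨x, hx, h.trans e⟩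
    · rcases min_choice (2 * y.2) (2 * (1 - y.2)) with h' | h'
      · exact Or.inr (Or.inl (h.trans h'))
      · exact Or.inr (Or.inr (h.trans h'))
  have hrB : MapsTo r (Sx S ×ˢ Icc (0 : ℝ) 1 ∩ {y | μ y ≤ 1 / 2}) (Bd S) := by
    rintro y ⟨hy, hy'⟩
    have hy' : μ y ≤ 1 / 2 := hy'
    have e : max (1 - μ y) (1 / 2) = 1 - μ y := max_eq_left (by linarith)
    have hpos : 0 < 1 - μ y := by linarith
    have hinv : 0 < (1 - μ y)⁻¹ := inv_pos.mpr hpos
    have r1 : ∀ x ∈ S, (r y).1 x = (1 - μ y)⁻¹ * (S.card : ℝ)⁻¹ * (S.card * y.1 x - μ y) := by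
      intro x hx
      simp only [r, e, bary, Pi.smul_apply, Pi.sub_apply, smul_eq_mul, hx, if_true]
      field_simp
    have r1' : ∀ x, x ∉ S → (r y).1 x = 0 := by
      intro x hx
      simp [r, bary, hx, hy.1.2.1 x hx]
    have r2 : (r y).2 = (1 - μ y)⁻¹ * (y.2 - μ y / 2) := by simp only [r, e]
    refine ⟨⟨⟨fun x => ?_, r1', ?_⟩, ?_, ?_⟩, ?_⟩
    · by_cases hx : x ∈ S
      · rw [r1 x hx]
        have := sub_nonneg.mpr (μ1 y x hx)
        positivity
      · rw [r1' x hx]
    · rw [Finset.sum_congr rfl r1, ← Finset.mul_sum, Finset.sum_sub_distrib, ← Finset.mul_sum,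
        hy.1.2.2]
      simp only [Finset.sum_const, nsmul_eq_mul]
      field_simp
    · rw [r2]
      have := μ2 y
      exact mul_nonneg hinv.le (by linarith)
    · rw [r2, inv_mul_le_iff₀ hpos]
      have := μ3 y
      linarith
    · rcases μc y with ⟨x, hx, h⟩ | h | h
      · exact Or.inl ⟨x, hx, by rw [r1 x hx, ← h, sub_self, mul_zero]⟩
      · refine Or.inr (Or.inl ?_)
        rw [r2]
        have : y.2 - μ y / 2 = 0 := by linarith
        rw [this, mul_zero]
      · refine Or.inr (Or.inr ?_)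
        rw [r2]
        have : y.2 - μ y / 2 = 1 - μ y := by linarith
        rw [this, inv_mul_cancel₀ hpos.ne']
  have hD : IsClosed (Sx S ×ˢ Icc (0 : ℝ) 1) := (isClosed_Sx S).prod isClosed_Icc
  refine ⟨fun y => N (f (r y), 2 * μ y), ?_, ?_⟩
  · have e : Sx S ×ˢ Icc (0 : ℝ) 1 = (Sx S ×ˢ Icc (0 : ℝ) 1 ∩ {y | μ y ≤ 1 / 2}) ∪
        (Sx S ×ˢ Icc (0 : ℝ) 1 ∩ {y | 1 / 2 ≤ μ y}) := by
      rw [← inter_union_distrib_left]
      refine (inter_eq_left.mpr fun y _ => ?_).symm
      exact le_total (μ y) (1 / 2)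
    rw [e]
    refine Good.union ⟨?_, F', ?_⟩ ?_ (hD.inter (isClosed_le hμ continuous_const))
      (hD.inter (isClosed_le continuous_const hμ))
    · exact hN.comp_continuousOn ((hf.comp hr.continuousOn hrB).prodMk (by fun_prop))
    · intro y hy
      exact hNF _ (hF (hrB hy)) _ (by have := μ0 y hy.1; linarith)
    · refine Good.congr (f := fun _ => c) ⟨continuousOn_const, F', fun _ _ => hc⟩ ?_
      intro y hy
      have : 1 / 2 ≤ μ y := hy.2
      exact hN1 _ _ (by linarith)
  · intro y hy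
    have e : μ y = 0 := by
      refine le_antisymm ?_ (μ0 y hy.1)
      rcases hy.2 with ⟨x, hx, h⟩ | h | h
      · simpa [h] using μ1 y x hx
      · simpa [h] using μ2 y
      · simpa [h] using μ3 y
    have e2 : r y = y := by
      simp only [r, e]
      norm_num
    simp only [e, e2, mul_zero, hN0]

end

end Pool.Agent.P.MP_510dd6_gt
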