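import Mathlib

namespace Pool.Agent.P.MP_510dd6_gt

open CategoryTheory

/-- The entries of the tuple `τ` lie in one left coset `g A` of an abelian subgroup `A`. -/
def InAbelianCoset {G : Type} [Group G] {ι : Type} (τ : ι → G) : Prop :=
  ∃ (g : G) (A : Subgroup G), (∀ a ∈ A, ∀ b ∈ A, a * b = b * a) ∧ ∀ i, ∃ a ∈ A, τ i = g * a

/-- The simplicial set whose `n`-simplices are the `(n+1)`-tuples of elements of `G` lying in one
coset of an abelian subgroup; a monotone map acts by reindexing the tuple. -/
def EcomSSet (G : Type) [Group G] : SSet.{0} where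
  obj n := {τ : Fin (n.unop.len + 1) → G // InAbelianCoset τ}
  map f := TypeCat.ofHom fun τ =>
    ⟨fun i => τ.1 (f.unop.toOrderHom i), by
      obtain ⟨g, A, hA, h⟩ := τ.2
      exact ⟨g, A, hA, fun i => h _⟩⟩
  map_id _ := rfl
  map_comp _ _ := rfl

end Pool.Agent.P.MP_510dd6_gt
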