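import Pool.Agent.P.MP_510dd6_gt.Defs

/-!
The integral Heisenberg group of countably infinite rank.
-/

namespace Pool.Agent.P.MP_510dd6_gt

noncomputable section

/-- the pairing -/
def pr : (ℕ →₀ ℤ) →ₗ[ℤ] (ℕ →₀ ℤ) →ₗ[ℤ] ℤ :=
  Finsupp.linearCombination ℤ (fun i => (Finsupp.lapply i : (ℕ →₀ ℤ) →ₗ[ℤ] ℤ))

@[simp] lemma pr_single_left (i : ℕ) (r : ℤ) (b : ℕ →₀ ℤ) : pr (Finsupp.single i r) b = r * b i := by
  simp [pr]

@[simp] lemma pr_single_right (i : ℕ) (r : ℤ) (a : ℕ →₀ ℤ) :
    pr a (Finsupp.single i r) = a i * r := by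
  induction a using Finsupp.induction_linear with
  | zero => simp
  | add f g hf hg => simp [hf, hg, add_mul]
  | single j s =>
    rw [pr_single_left]
    by_cases h : i = j
    · subst h; simp
    · simp [Finsupp.single_eq_of_ne h, Finsupp.single_eq_of_ne (Ne.symm h)]

/-- the Heisenberg group -/
@[ext] structure Heis : Type where
  a : ℕ →₀ ℤ
  b : ℕ →₀ ℤ
  c : ℤ

instance : Mul Heis where
  mul x y := ⟨x.a + y.a, x.b + y.b, x.c + y.c + pr x.a y.b⟩
instance : One Heis where
  one := ⟨0, 0, 0⟩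
instance : Inv Heis where
  inv x := ⟨-x.a, -x.b, -x.c + pr x.a x.b⟩

@[simp] lemma mul_a (x y : Heis) : (x * y).a = x.a + y.a := rfl
@[simp] lemma mul_b (x y : Heis) : (x * y).b = x.b + y.b := rfl
@[simp] lemma mul_c (x y : Heis) : (x * y).c = x.c + y.c + pr x.a y.b := rfl
@[simp] lemma one_a : (1 : Heis).a = 0 := rfl
@[simp] lemma one_b : (1 : Heis).b = 0 := rfl
@[simp] lemma one_c : (1 : Heis).c = 0 := rfl
@[simp] lemma inv_a (x : Heis) : (x⁻¹).a = -x.a := rfl
@[simp] lemma inv_b (x : Heis) : (x⁻¹).b = -x.b := rfl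
@[simp] lemma inv_c (x : Heis) : (x⁻¹).c = -x.c + pr x.a x.b := rfl

instance : Group Heis :=
  Group.ofLeftAxioms
    (fun x y z => by
      apply Heis.ext
      · simp [add_assoc]
      · simp [add_assoc]
      · simp; ring)
    (fun x => by apply Heis.ext <;> simp)
    (fun x => by apply Heis.ext <;> simp)

/-- the symplectic form -/
def om (x y : Heis) : ℤ := pr x.a y.b - pr y.a x.b

lemma om_self (x : Heis) : om x x = 0 := by simp [om]

lemma om_anti (x y : Heis) : om y x = - om x y := by simp [om]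

lemma comm_iff (x y : Heis) : x * y = y * x ↔ om x y = 0 := by
  constructor
  · intro h
    have := congrArg Heis.c h
    simp only [mul_c] at this
    unfold om
    linarith
  · intro h
    unfold om at h
    apply Heis.ext
    · simp [add_comm]
    · simp [add_comm]
    · simp only [mul_c]; linarith

lemma center_not_finiteIndex : ¬ (Subgroup.center Heis).FiniteIndex := by
  intro h
  apply h.index_ne_zero
  rw [Subgroup.index_eq_zero_iff_infinite]
  refine Infinite.of_injective
    (fun i : ℕ => (QuotientGroup.mk (⟨Finsupp.single i 1, 0, 0⟩ : Heis) :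
      Heis ⧸ Subgroup.center Heis)) ?_
  intro i j hij
  have h1 := QuotientGroup.eq.mp hij
  rw [Subgroup.mem_center_iff] at h1
  have h2 := (comm_iff _ _).mp (h1 ⟨0, Finsupp.single i 1, 0⟩)
  by_contra hne
  simp [om, Finsupp.single_eq_of_ne hne] at h2

lemma cocycle {ι : Type} {τ : ι → Heis} (h : InAbelianCoset τ) (i j k : ι) :
    om (τ i) (τ j) + om (τ j) (τ k) = om (τ i) (τ k) := by
  obtain ⟨g, A, hA, h⟩ := h
  obtain ⟨x, hx, ex⟩ := h i
  obtain ⟨y, hy, ey⟩ := h j
  obtain ⟨z, hz, ez⟩ := h k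
  have h1 := (comm_iff _ _).mp (hA x hx y hy)
  have h2 := (comm_iff _ _).mp (hA y hy z hz)
  have h3 := (comm_iff _ _).mp (hA x hx z hz)
  rw [ex, ey, ez]
  simp only [om, mul_a, mul_b, map_add, LinearMap.add_apply] at *
  linarith

/-- vertices of the infinite cyclic cover -/
@[ext] structure W : Type where
  g : Heis
  z : ℤ

/-- adjacency in the cover -/
def adj (x y : W) : Prop := y.z - x.z = om x.g y.g

lemma adj_refl (x : W) : adj x x := by simp [adj, om_self]

lemma adj_symm {x y : W} (h : adj x y) : adj y x := by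
  unfold adj at *
  rw [om_anti]
  linarith

lemma valid_of_adj {ι : Type} (τ : ι → W) (h : ∀ i j, adj (τ i) (τ j)) :
    InAbelianCoset (fun i => (τ i).g) := by
  rcases isEmpty_or_nonempty ι with hι | ⟨⟨i0⟩⟩
  · refine ⟨1, ⊥, ?_, fun i => hι.elim i⟩
    intro a ha b hb
    rw [Subgroup.mem_bot] at ha hb
    rw [ha, hb]
  · refine ⟨(τ i0).g, Subgroup.closure (Set.range fun i => (τ i0).g⁻¹ * (τ i).g), ?_, ?_⟩
    · have := Subgroup.isMulCommutative_closure
        (k := Set.range fun i => (τ i0).g⁻¹ * (τ i).g) (by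
          rintro _ ⟨i, rfl⟩ _ ⟨j, rfl⟩
          rw [comm_iff]
          have h1 := h i j
          have h2 := h i0 i
          have h3 := h i0 j
          simp only [adj, om, mul_a, mul_b, inv_a, inv_b, map_add, map_neg, LinearMap.add_apply,
            LinearMap.neg_apply] at *
          linarith)
      intro a ha b hb
      exact setLike_mul_comm ha hb
    · intro i
      exact ⟨_, Subgroup.subset_closure ⟨i, rfl⟩, by simp⟩

/-- The key property: a finite set of vertices can be moved to general position and then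
coned off. -/
lemma exists_move (F : Finset W) : ∃ (φ : W → W) (c : W),
    (∀ x ∈ F, ∀ y ∈ F, adj x y → adj x (φ y) ∧ adj (φ x) (φ y)) ∧ ∀ x ∈ F, adj (φ x) c := by
  classical
  obtain ⟨M, hM⟩ : ∃ M : ℕ, ∀ x ∈ F, ∀ n, M ≤ n → x.g.a n = 0 ∧ x.g.b n = 0 := by
    obtain ⟨M, hM⟩ := (F.biUnion fun x => x.g.a.support ∪ x.g.b.support).bddAbove
    refine ⟨M + 1, fun x hx n hn => ⟨?_, ?_⟩⟩
    · by_contra h
      have : n ≤ M := hM (Finset.mem_coe.mpr (Finset.mem_biUnion.mpr
        ⟨x, hx, Finset.mem_union_left _ (Finsupp.mem_support_iff.mpr h)⟩))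
      omega
    · by_contra h
      have : n ≤ M := hM (Finset.mem_coe.mpr (Finset.mem_biUnion.mpr
        ⟨x, hx, Finset.mem_union_right _ (Finsupp.mem_support_iff.mpr h)⟩))
      omega
  obtain ⟨N, hN1, hN2⟩ : ∃ N : W → ℕ, (∀ x, M ≤ N x) ∧ ∀ x ∈ F, ∀ y ∈ F, N x = N y → x = y := by
    refine ⟨fun x => M + if h : x ∈ F then (F.equivFin ⟨x, h⟩ : ℕ) else 0,
      fun x => Nat.le_add_right _ _, fun x hx y hy h => ?_⟩
    simp only [hx, hy, dite_true, add_right_inj] at h
    have := F.equivFin.injective (Fin.ext h)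
    exact congrArg Subtype.val this
  refine ⟨fun x => ⟨⟨x.g.a + Finsupp.single (N x) 1, x.g.b, 0⟩, x.z⟩,
    ⟨⟨0, ∑ y ∈ F, Finsupp.single (N y) (-y.z), 0⟩, 0⟩, ?_, ?_⟩
  · intro x hx y hy h
    have e1 := (hM x hx _ (hN1 y)).2
    have e2 := (hM y hy _ (hN1 x)).2
    simp only [adj, om, map_add, LinearMap.add_apply, pr_single_left] at *
    constructor <;> linarith
  · intro x hx
    simp only [adj, om, map_sum, pr_single_right, map_zero, LinearMap.zero_apply,
      Finsupp.add_apply]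
    rw [Finset.sum_eq_single x]
    · simp [(hM x hx _ (hN1 x)).1]
    · intro y hy hne
      rw [(hM x hx _ (hN1 y)).1, Finsupp.single_eq_of_ne (fun h => hne (hN2 y hy x hx h))]
      simp
    · intro h
      exact absurd hx h

/-- deck transformations on vertices -/
def tr (m : ℤ) (x : W) : W := ⟨x.g, x.z + m⟩

@[simp] lemma tr_g (m : ℤ) (x : W) : (tr m x).g = x.g := rfl
@[simp] lemma tr_z (m : ℤ) (x : W) : (tr m x).z = x.z + m := rfl
@[simp] lemma tr_zero (x : W) : tr 0 x = x := by simp [tr]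
lemma tr_tr (m k : ℤ) (x : W) : tr m (tr k x) = tr (m + k) x := by
  simp only [tr]; congr 1; ring

lemma tr_injective (m : ℤ) : Function.Injective (tr m) := by
  intro x y h
  have := congrArg (tr (-m)) h
  simpa [tr_tr] using this

lemma adj_tr (m : ℤ) {x y : W} (h : adj x y) : adj (tr m x) (tr m y) := by
  simp only [adj, tr_z, tr_g] at *
  linarith

open Classical in
instance : LinearOrder Heis := linearOrderOfSTO WellOrderingRel

instance : LinearOrder W :=
  LinearOrder.lift' (fun x : W => toLex (x.g, x.z)) (by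
    intro x y h
    simp only [toLex_inj, Prod.mk.injEq] at h
    exact W.ext h.1 h.2)

lemma tr_mono (m : ℤ) : Monotone (tr m) := by
  intro x y h
  change toLex (x.g, x.z) ≤ toLex (y.g, y.z) at h
  change toLex (x.g, x.z + m) ≤ toLex (y.g, y.z + m)
  rw [Prod.Lex.toLex_le_toLex] at h ⊢
  rcases h with h | ⟨h1, h2⟩
  · exact Or.inl h
  · exact Or.inr ⟨h1, by simpa using h2⟩

/-- the periodic edge path -/
def vx (k : ℤ) : W :=
  if k % 3 = 0 then ⟨1, k / 3⟩
  else if k % 3 = 1 then ⟨⟨Finsupp.single 0 1, 0, 0⟩, k / 3⟩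
  else ⟨⟨0, Finsupp.single 0 1, 0⟩, k / 3 + 1⟩

lemma vx_adj (k : ℤ) : adj (vx k) (vx (k + 1)) := by
  have h : k % 3 = 0 ∨ k % 3 = 1 ∨ k % 3 = 2 := by omega
  rcases h with h | h | h
  · have h1 : (k + 1) % 3 = 1 := by omega
    have h2 : (k + 1) / 3 = k / 3 := by omega
    simp [vx, h, h1, h2, adj, om]
  · have h1 : (k + 1) % 3 = 2 := by omega
    have h2 : (k + 1) / 3 = k / 3 := by omega
    simp [vx, h, h1, h2, adj, om]
  · have h1 : (k + 1) % 3 = 0 := by omega
    have h2 : (k + 1) / 3 = k / 3 + 1 := by omega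
    simp [vx, h, h1, h2, adj, om]

lemma vx_add (k m : ℤ) : vx (k + 3 * m) = tr m (vx k) := by
  have h1 : (k + 3 * m) % 3 = k % 3 := by omega
  have h2 : (k + 3 * m) / 3 = k / 3 + m := by omega
  unfold vx
  rw [h1, h2]
  split_ifs <;> simp [tr]
  ring

end

end Pool.Agent.P.MP_510dd6_gt
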