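import Pool.Agent.P.MP_510dd6_gt.Pt

/-!
The homotopy equivalence with the circle.
-/

namespace Pool.Agent.P.MP_510dd6_gt

open Set CategoryTheory Opposite

noncomputable section

section join
variable {ι₁ ι₂ κ₁ κ₂ : Type} [Fintype ι₁] [Fintype ι₂] [Fintype κ₁] [Fintype κ₂]

/-- concatenation of two families -/
def cat {α : Type} (u : ι₁ → α) (v : ι₂ → α) : ι₁ ⊕ₗ ι₂ → α := fun x => Sum.elim u v (ofLex x)

lemma sum_lex (f : ι₁ ⊕ₗ ι₂ → ℝ) :
    ∑ x, f x = ∑ a, f (toLex (Sum.inl a)) + ∑ b, f (toLex (Sum.inr b)) := by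
  rw [← Equiv.sum_comp toLex f, Fintype.sum_sum_type]

lemma cat_mem {p : ι₁ → ℝ} {q : ι₂ → ℝ} (hp : p ∈ stdSimplex ℝ ι₁) (hq : q ∈ stdSimplex ℝ ι₂)
    {s : ℝ} (hs : s ∈ Icc (0 : ℝ) 1) :
    cat (fun i => (1 - s) * p i) (fun i => s * q i) ∈ stdSimplex ℝ (ι₁ ⊕ₗ ι₂) := by
  refine ⟨?_, ?_⟩
  · rintro (a | b)
    · exact mul_nonneg (by linarith [hs.2]) (hp.1 a)
    · exact mul_nonneg hs.1 (hq.1 b)
  · rw [sum_lex]
    simp only [cat, ofLex_toLex, Sum.elim_inl, Sum.elim_inr, ← Finset.mul_sum, hp.2, hq.2]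
    ring

/-- sum of two maps -/
def lmap (f₁ : ι₁ → κ₁) (f₂ : ι₂ → κ₂) : ι₁ ⊕ₗ ι₂ → κ₁ ⊕ₗ κ₂ :=
  fun x => toLex (Sum.map f₁ f₂ (ofLex x))

omit [Fintype ι₁] [Fintype ι₂] [Fintype κ₁] [Fintype κ₂] in
lemma lmap_mono [LinearOrder ι₁] [LinearOrder ι₂] [LinearOrder κ₁] [LinearOrder κ₂]
    {f₁ : ι₁ → κ₁} {f₂ : ι₂ → κ₂} (h₁ : Monotone f₁) (h₂ : Monotone f₂) :
    Monotone (lmap f₁ f₂) := by
  rintro (a | a) (b | b) h
  · exact Sum.Lex.inl_le_inl_iff.mpr (h₁ (Sum.Lex.inl_le_inl_iff.mp h))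
  · exact Sum.Lex.inl_le_inr _ _
  · exact absurd h Sum.Lex.not_inr_le_inl
  · exact Sum.Lex.inr_le_inr_iff.mpr (h₂ (Sum.Lex.inr_le_inr_iff.mp h))

lemma IsPush.cat {f₁ : ι₁ → κ₁} {f₂ : ι₂ → κ₂} {p₁ : ι₁ → ℝ} {p₂ : ι₂ → ℝ} {q₁ : κ₁ → ℝ}
    {q₂ : κ₂ → ℝ} (h₁ : IsPush f₁ p₁ q₁) (h₂ : IsPush f₂ p₂ q₂) :
    IsPush (lmap f₁ f₂) (cat p₁ p₂) (cat q₁ q₂) := by
  intro u
  rw [sum_lex, sum_lex]
  exact congrArg₂ (· + ·) (h₁ fun k => u (toLex (Sum.inl k))) (h₂ fun k => u (toLex (Sum.inr k)))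

lemma isPush_inl (p : ι₁ → ℝ) (q : ι₂ → ℝ) :
    IsPush (fun a : ι₁ => (toLex (Sum.inl a) : ι₁ ⊕ₗ ι₂)) p
      (cat (fun i => (1 - 0) * p i) (fun i => 0 * q i)) := by
  intro u
  rw [sum_lex]
  simp [cat]

lemma isPush_inr (p : ι₁ → ℝ) (q : ι₂ → ℝ) :
    IsPush (fun a : ι₂ => (toLex (Sum.inr a) : ι₁ ⊕ₗ ι₂)) q
      (cat (fun i => (1 - 1) * p i) (fun i => 1 * q i)) := by
  intro u
  rw [sum_lex]
  simp [cat]

end join

/-- the canonical lift of a simplex to the cover -/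
def lf {n : SimplexCategory} (σ : EE.obj (op n)) (i : Fin (n.len + 1)) : W :=
  ⟨σ.1 i, om (σ.1 0) (σ.1 i)⟩

lemma lf_adj {n : SimplexCategory} (σ : EE.obj (op n)) (i j : Fin (n.len + 1)) :
    adj (lf σ i) (lf σ j) := by
  have := cocycle σ.2 0 i j
  simp only [adj, lf]
  linarith

/-- vertex set of the lift -/
def vs {n : SimplexCategory} (σ : EE.obj (op n)) : Finset W := Finset.univ.image (lf σ)

lemma lf_mem {n : SimplexCategory} (σ : EE.obj (op n)) (i : Fin (n.len + 1)) : lf σ i ∈ vs σ :=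
  Finset.mem_image_of_mem _ (Finset.mem_univ i)

lemma clq_vs {n : SimplexCategory} (σ : EE.obj (op n)) : Clq (vs σ) := by
  intro x hx y hy
  obtain ⟨i, _, rfl⟩ := Finset.mem_image.mp hx
  obtain ⟨j, _, rfl⟩ := Finset.mem_image.mp hy
  exact lf_adj σ i j

/-- the lifted point -/
def qt {n : SimplexCategory} (σ : EE.obj (op n)) (p : stdSimplex ℝ (Fin (n.len + 1))) : PP :=
  cmb Finset.univ (lf σ) p

lemma qt_mem {n : SimplexCategory} (σ : EE.obj (op n)) (p : stdSimplex ℝ (Fin (n.len + 1))) :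
    qt σ p ∈ Sx (vs σ) :=
  cmb_mem (fun i _ => p.2.1 i) p.2.2 (fun i _ _ => lf_mem σ i)

lemma continuous_qt {n : SimplexCategory} (σ : EE.obj (op n)) : Continuous (qt σ) :=
  (continuous_cmb _ _).comp continuous_subtype_val

/-- the shift between the lift of a face and the face of the lift -/
def sh {m n : SimplexCategory} (f : m ⟶ n) (σ : EE.obj (op n)) : ℤ :=
  om (σ.1 0) (σ.1 (f.toOrderHom 0))

lemma lf_nat {m n : SimplexCategory} (f : m ⟶ n) (σ : EE.obj (op n)) (i : Fin (m.len + 1)) :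
    lf σ (f.toOrderHom i) = tr (sh f σ) (lf (EE.map f.op σ) i) := by
  have := cocycle σ.2 0 (f.toOrderHom 0) (f.toOrderHom i)
  apply W.ext
  · rfl
  · change om (σ.1 0) (σ.1 (f.toOrderHom i)) =
      om (σ.1 (f.toOrderHom 0)) (σ.1 (f.toOrderHom i)) + om (σ.1 0) (σ.1 (f.toOrderHom 0))
    linarith

lemma qt_nat {m n : SimplexCategory} (f : m ⟶ n) (σ : EE.obj (op n))
    (p : stdSimplex ℝ (Fin (m.len + 1))) :
    qt σ (stdSimplex.map f p) = T (sh f σ) (qt (EE.map f.op σ) p) := by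
  unfold qt
  rw [T_cmb, (isPush_map f p).cmb]
  congr 1
  funext i
  exact lf_nat f σ i

lemma chr_eq_pt {n : SimplexCategory} (σ : EE.obj (op n)) (p : stdSimplex ℝ (Fin (n.len + 1))) :
    chr EE n σ p = pt (lf σ) p := by
  rw [pt_eq (lf_adj σ)]
  have := chr_eq_chi σ.1 σ.2 n id monotone_id p
  rw [stdSimplex.map_id_apply] at this
  exact this

lemma coe_add_int (x : ℝ) (k : ℤ) :
    ((x + 3 * k : ℝ) : AddCircle (3 : ℝ)) = (x : AddCircle (3 : ℝ)) := by
  rw [AddCircle.coe_add, add_eq_left, AddCircle.coe_eq_zero_iff]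
  exact ⟨k, by simp [mul_comm]⟩

/-- the map to the circle -/
def cc : C(RE, AddCircle (3 : ℝ)) :=
  desc EE _ (fun _ σ => ⟨fun p => (ht (qt σ p) : AddCircle (3 : ℝ)),
    (AddCircle.continuous_mk' 3).comp
      ((continuousOn_ht _).comp_continuous (continuous_qt σ) (qt_mem σ))⟩)
    (fun m n f σ p => by
      simp only [ContinuousMap.coe_mk]
      rw [qt_nat, ht_T (qt_mem _ _), coe_add_int])

lemma cc_chr {n : SimplexCategory} (σ : EE.obj (op n)) (p : stdSimplex ℝ (Fin (n.len + 1))) :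
    cc (chr EE n σ p) = (ht (qt σ p) : AddCircle (3 : ℝ)) := desc_chr _ _ _ _ _ _ _

lemma cc_JJ {S : Finset W} (hS : Clq S) {p : PP} (hp : p ∈ Sx S) :
    cc (JJ p) = (ht p : AddCircle (3 : ℝ)) := by
  have := nonempty_of_mem (restrict_mem hp)
  rw [JJ_eq hS hp]
  have e := pt_eq hS.val ⟨_, restrict_mem hp⟩
  refine (congrArg cc e).trans ?_
  unfold chi
  rw [cc_chr]
  have e2 : qt (n := SimplexCategory.mk (Fintype.card S - 1))
      ⟨fun i => ((eqv S i : S) : W).g, (valid_of_adj _ hS.val).comp _⟩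
      (stdSimplex.map (eqv S).symm ⟨_, restrict_mem hp⟩) = T (-((eqv S 0 : S) : W).z) p := by
    unfold qt
    rw [(isPush_map _ _).cmb]
    conv_rhs => rw [← cmb_val hp, T_cmb]
    congr 1
    funext i
    have := hS.val (eqv S 0) i
    apply W.ext
    · simp [lf]
    · simp only [lf, adj, OrderIso.apply_symm_apply, tr_z] at *
      exact this.symm.trans (by ring)
  rw [e2, ht_T hp, coe_add_int]

lemma ln_clq (t : ℝ) : ∃ S, Clq S ∧ ln t ∈ Sx S := ⟨_, clq_vx _, ln_mem _ (mem_floor_Icc t)⟩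

lemma periodic_JJ : Function.Periodic (fun t => JJ (ln t)) (3 : ℝ) := by
  intro t
  obtain ⟨S, h1, h2⟩ := ln_clq t
  have := ln_add t 1
  simp only [Int.cast_one, mul_one] at this
  simp only [this, JJ_T h1 h2]

/-- the map from the circle -/
def gg : C(AddCircle (3 : ℝ), RE) :=
  ⟨periodic_JJ.lift, (QuotientAddGroup.isQuotientMap_mk _).continuous_iff.mpr
    (continuous_comp_ln fun _ => continuousOn_JJ)⟩

lemma gg_coe (t : ℝ) : gg (t : AddCircle (3 : ℝ)) = JJ (ln t) := rfl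

lemma periodic_ht : Function.Periodic (fun t => ht (ln t) - t) (3 : ℝ) := by
  intro t
  obtain ⟨S, h1, h2⟩ := ln_clq t
  have := ln_add t 1
  simp only [Int.cast_one, mul_one] at this
  simp only [this, ht_T h2]
  simp

lemma cc_gg : (cc.comp gg).Homotopic (ContinuousMap.id _) := by
  have hd : Continuous periodic_ht.lift :=
    (QuotientAddGroup.isQuotientMap_mk _).continuous_iff.mpr
      ((continuous_comp_ln fun S _ => continuousOn_ht S).sub continuous_id)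
  refine ⟨⟨⟨fun z => z.2 + (((1 - (z.1 : ℝ)) * periodic_ht.lift z.2 : ℝ) : AddCircle (3 : ℝ)),
    continuous_snd.add ((AddCircle.continuous_mk' 3).comp (by fun_prop))⟩, fun x => ?_,
    fun x => ?_⟩⟩
  · induction x using QuotientAddGroup.induction_on with
    | H t =>
      obtain ⟨S, h1, h2⟩ := ln_clq t
      change (t : AddCircle (3 : ℝ)) + (((1 - (0 : ℝ)) * (ht (ln t) - t) : ℝ) : AddCircle (3 : ℝ)) =
        cc (JJ (ln t))
      rw [cc_JJ h1 h2, ← AddCircle.coe_add]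
      congr 1
      ring
  · simp

/-- the intermediate self map -/
def uu : C(RE, RE) :=
  desc EE _ (fun _ σ => ⟨fun p => JJ (qt σ p),
      (continuousOn_JJ (clq_vs σ)).comp_continuous (continuous_qt σ) (qt_mem σ)⟩)
    (fun m n f σ p => by
      simp only [ContinuousMap.coe_mk]
      rw [qt_nat, JJ_T (clq_vs _) (qt_mem _ _)])

lemma uu_chr {n : SimplexCategory} (σ : EE.obj (op n)) (p : stdSimplex ℝ (Fin (n.len + 1))) :
    uu (chr EE n σ p) = JJ (qt σ p) := desc_chr _ _ _ _ _ _ _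

lemma uu_gg_cc : uu.Homotopic (gg.comp cc) := by
  refine homotopic_of_family EE RE _ _ (fun n σ z => JJ (Psi (qt σ z.1, z.2))) ?_ ?_ ?_ ?_
  · intro n σ
    have := continuous_qt σ
    exact ((Psi_good (clq_vs σ)).cont fun _ => continuousOn_JJ).comp_continuous
      (f := fun z : stdSimplex ℝ (Fin (n.len + 1)) × unitInterval => (qt σ z.1, (z.2 : ℝ)))
      (by fun_prop) (fun z => ⟨qt_mem σ z.1, z.2.2⟩)
  · intro m n f σ p s
    obtain ⟨F, hF⟩ := (Psi_good (clq_vs (EE.map f.op σ))).2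
    obtain ⟨S, _, h1, h2⟩ := hF (x := (qt (EE.map f.op σ) p, (s : ℝ))) ⟨qt_mem _ p, s.2⟩
    simp only
    rw [qt_nat, Psi_T (qt_mem _ _), JJ_T h1 h2]
  · intro n σ p
    rw [uu_chr]
    exact congrArg JJ (Psi_zero _)
  · intro n σ p
    rw [ContinuousMap.comp_apply, cc_chr, gg_coe]
    exact congrArg JJ (Psi_one _)

lemma cat_adj {n : SimplexCategory} (σ : EE.obj (op n)) (i j : Fin (n.len + 1) ⊕ₗ vs σ) :
    adj (cat (lf σ) Subtype.val i) (cat (lf σ) Subtype.val j) := by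
  have : ∀ i : Fin (n.len + 1) ⊕ₗ vs σ, cat (lf σ) Subtype.val i ∈ vs σ := by
    rintro (a | a)
    · exact lf_mem σ a
    · exact a.2
  exact clq_vs σ _ (this i) _ (this j)

lemma id_uu : (ContinuousMap.id RE).Homotopic uu := by
  refine homotopic_of_family EE RE _ _ (fun n σ z => pt (cat (lf σ) (Subtype.val : vs σ → W))
    (cat (fun i => (1 - (z.2 : ℝ)) * z.1 i) (fun x => (z.2 : ℝ) * qt σ z.1 x))) ?_ ?_ ?_ ?_
  · intro n σ
    have := continuous_qt σ
    refine (continuousOn_pt (cat_adj σ)).comp_continuous ?_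
      (fun z => cat_mem z.1.2 (restrict_mem (qt_mem σ z.1)) z.2.2)
    refine continuous_pi ?_
    rintro (a | a)
    · change Continuous fun z : stdSimplex ℝ (Fin (n.len + 1)) × unitInterval =>
        (1 - (z.2 : ℝ)) * z.1.1 a
      exact Continuous.mul (by fun_prop)
        ((continuous_apply a).comp (continuous_subtype_val.comp continuous_fst))
    · change Continuous fun z : stdSimplex ℝ (Fin (n.len + 1)) × unitInterval =>
        (z.2 : ℝ) * qt σ z.1 a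
      fun_prop
  · intro m n f σ p s
    have hsub : ∀ x ∈ vs (EE.map f.op σ), tr (sh f σ) x ∈ vs σ := by
      intro x hx
      obtain ⟨i, _, rfl⟩ := Finset.mem_image.mp hx
      rw [← lf_nat]
      exact lf_mem _ _
    refine pt_nat (lmap f.toOrderHom
      (fun x : vs (EE.map f.op σ) => (⟨tr (sh f σ) x, hsub x x.2⟩ : vs σ)))
      (lmap_mono f.toOrderHom.monotone (fun _ _ hxy => tr_mono _ hxy)) ?_ (cat_adj _) (cat_adj _)
      (cat_mem p.2 (restrict_mem (qt_mem _ p)) s.2) ?_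
    · rintro (a | a) <;> rfl
    · refine IsPush.cat ((isPush_map f p).smul _) ?_
      simp only [qt_nat]
      exact (isPush_tr (qt_mem _ p) _ hsub).smul _
  · intro n σ p
    rw [ContinuousMap.id_apply, chr_eq_pt]
    exact (pt_nat (τ := cat (lf σ) (Subtype.val : vs σ → W)) (fun a => toLex (Sum.inl a))
      Sum.Lex.inl_mono (fun _ => rfl) (lf_adj σ) (cat_adj σ) p.2 (isPush_inl _ _)).symm
  · intro n σ p
    rw [uu_chr, JJ_eq (clq_vs σ) (qt_mem σ p)]
    exact (pt_nat (τ := cat (lf σ) (Subtype.val : vs σ → W)) (fun a => toLex (Sum.inr a))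
      Sum.Lex.inr_mono (fun _ => rfl) (clq_vs σ).val (cat_adj σ)
      (restrict_mem (qt_mem σ p)) (isPush_inr _ _)).symm

/-- the homotopy equivalence -/
def equivCircle : ContinuousMap.HomotopyEquiv RE Circle :=
  (⟨cc, gg, (id_uu.trans uu_gg_cc).symm, cc_gg⟩ :
    ContinuousMap.HomotopyEquiv RE (AddCircle (3 : ℝ))).trans
      (AddCircle.homeomorphCircle (by norm_num)).toHomotopyEquiv

end

end Pool.Agent.P.MP_510dd6_gt
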