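import Pool.Agent.P.MP_510dd6_gt.Cx

/-!
The equivariant deformation of the cover onto a periodic line.
-/

namespace Pool.Agent.P.MP_510dd6_gt

open Set

noncomputable section

open Classical in
/-- the support as a finite set -/
def sp (p : PP) : Finset W := if h : (Function.support p).Finite then h.toFinset else ∅

lemma mem_sp {S : Finset W} {p : PP} (hp : p ∈ Sx S) {x : W} : x ∈ sp p ↔ p x ≠ 0 := by
  have h : (Function.support p).Finite :=
    S.finite_toSet.subset (fun y hy => by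
      by_contra h
      exact hy (hp.2.1 y h))
  simp [sp, h]

lemma sp_subset {S : Finset W} {p : PP} (hp : p ∈ Sx S) : sp p ⊆ S := by
  intro x hx
  by_contra h
  exact (mem_sp hp).mp hx (hp.2.1 x h)

lemma mem_Sx_sp {S : Finset W} {p : PP} (hp : p ∈ Sx S) : p ∈ Sx (sp p) :=
  Sx_of_vanish hp (fun x hx => by
    by_contra h
    exact hx ((mem_sp hp).mpr h))

lemma sp_T {S : Finset W} {p : PP} (hp : p ∈ Sx S) (m : ℤ) :
    sp (T m p) = (sp p).image (tr m) := by
  ext x
  rw [mem_sp (T_mem m hp), mem_image_tr, mem_sp hp]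
  rfl

/-- the height function -/
def ht (p : PP) : ℝ := 3 * ∑ x ∈ sp p, p x * (x.z : ℝ)

lemma ht_eq {S : Finset W} {p : PP} (hp : p ∈ Sx S) : ht p = 3 * ∑ x ∈ S, p x * (x.z : ℝ) := by
  rw [ht, sum_eq_of_vanish p _ (mem_Sx_sp hp).2.1 hp.2.1]

lemma continuousOn_ht (S : Finset W) : ContinuousOn ht (Sx S) :=
  ContinuousOn.congr (f := fun p : PP => 3 * ∑ x ∈ S, p x * (x.z : ℝ)) (by fun_prop)
    (fun _ hp => ht_eq hp)

lemma ht_T {S : Finset W} {p : PP} (hp : p ∈ Sx S) (m : ℤ) : ht (T m p) = ht p + 3 * m := by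
  rw [ht_eq (T_mem m hp), ht_eq hp, Finset.sum_image (fun x _ y _ h => tr_injective m h)]
  simp only [T_tr, tr_z, Int.cast_add, mul_add, Finset.sum_add_distrib, ← Finset.sum_mul, hp.2.2,
    one_mul]

lemma ht_bound (S : Finset W) : ∃ M : ℝ, MapsTo ht (Sx S) (Icc (-M) M) := by
  refine ⟨3 * ∑ x ∈ S, |(x.z : ℝ)|, fun p hp => ?_⟩
  rw [mem_Icc, ← abs_le, ht_eq hp, abs_mul, abs_of_pos (by norm_num : (0 : ℝ) < 3)]
  gcongr
  refine (Finset.abs_sum_le_sum_abs _ _).trans (Finset.sum_le_sum fun x hx => ?_)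
  rw [abs_mul, abs_of_nonneg (hp.1 x)]
  have : p x ≤ 1 := by
    rw [← hp.2.2]
    exact Finset.single_le_sum (fun y _ => hp.1 y) hx
  exact mul_le_of_le_one_left (abs_nonneg _) this

/-- the periodic line -/
def ln (t : ℝ) : PP := (1 - Int.fract t) • dl (vx ⌊t⌋) + Int.fract t • dl (vx (⌊t⌋ + 1))

lemma ln_eq (k : ℤ) {t : ℝ} (h : t ∈ Icc (k : ℝ) (k + 1)) :
    ln t = (1 - (t - k)) • dl (vx k) + (t - k) • dl (vx (k + 1)) := by
  rcases h.2.lt_or_eq with h2 | h2
  · have : ⌊t⌋ = k := Int.floor_eq_iff.mpr ⟨h.1, h2⟩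
    simp only [ln, Int.fract, this]
  · have : t = ((k + 1 : ℤ) : ℝ) := by simpa using h2
    rw [this]
    simp [ln]

lemma clq_vx (k : ℤ) : Clq {vx k, vx (k + 1)} := by
  intro x hx y hy
  simp only [Finset.mem_insert, Finset.mem_singleton] at hx hy
  rcases hx with rfl | rfl <;> rcases hy with rfl | rfl
  · exact adj_refl _
  · exact vx_adj k
  · exact adj_symm (vx_adj k)
  · exact adj_refl _

lemma ln_mem (k : ℤ) {t : ℝ} (h : t ∈ Icc (k : ℝ) (k + 1)) : ln t ∈ Sx {vx k, vx (k + 1)} := by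
  rw [ln_eq k h]
  exact Sx_comb (dl_mem (by simp)) (dl_mem (by simp)) (by linarith [h.2]) (by linarith [h.1])
    (by ring)

lemma mem_floor_Icc (t : ℝ) : t ∈ Icc ((⌊t⌋ : ℤ) : ℝ) (⌊t⌋ + 1) :=
  ⟨Int.floor_le t, (Int.lt_floor_add_one t).le⟩

lemma ln_good (a b : ℝ) : Good ln (Icc a b) := by
  have h1 : ∀ k : ℤ, Good ln (Icc (k : ℝ) (k + 1)) := fun k =>
    ⟨ContinuousOn.congr (f := fun t : ℝ => (1 - (t - k)) • dl (vx k) + (t - k) • dl (vx (k + 1)))
      (by fun_prop) (fun _ h => ln_eq k h), {vx k, vx (k + 1)},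
      fun t h => ⟨_, subset_rfl, clq_vx k, ln_mem k h⟩⟩
  refine (Good.biUnion (Finset.Icc ⌊a⌋ ⌊b⌋) (fun k : ℤ => Icc (k : ℝ) (k + 1)) (fun k _ => h1 k)
    (fun _ _ => isClosed_Icc)).mono ?_
  intro t ht
  simp only [mem_iUnion]
  exact ⟨⌊t⌋, Finset.mem_Icc.mpr ⟨Int.floor_mono ht.1, Int.floor_mono ht.2⟩, mem_floor_Icc t⟩

lemma ln_add (t : ℝ) (m : ℤ) : ln (t + 3 * m) = T m (ln t) := by
  have e : t + 3 * m = t + ((3 * m : ℤ) : ℝ) := by push_cast; ring
  rw [e, ln, ln, Int.fract_add_intCast, Int.floor_add_intCast, T_add, T_smul, T_smul, T_dl, T_dl,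
    ← vx_add, ← vx_add]
  congr 4
  ring

lemma ln_ht_good (S : Finset W) : Good (fun p => ln (ht p)) (Sx S) := by
  obtain ⟨M, hM⟩ := ht_bound S
  exact (ln_good (-M) M).comp (continuousOn_ht S) hM

/-- normalising integer of a finite set -/
def mz (S : Finset W) : ℤ := if h : S.Nonempty then S.inf' h W.z else 0

lemma mz_image {S : Finset W} (h : S.Nonempty) (m : ℤ) : mz (S.image (tr m)) = mz S + m := by
  have h' : (S.image (tr m)).Nonempty := h.image _
  simp only [mz, h, h', dite_true]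
  apply le_antisymm
  · obtain ⟨x, hx, e⟩ := Finset.exists_mem_eq_inf' h W.z
    rw [e]
    exact Finset.inf'_le W.z (Finset.mem_image_of_mem (tr m) hx)
  · rw [Finset.le_inf'_iff]
    intro y hy
    obtain ⟨x, hx, rfl⟩ := Finset.mem_image.mp hy
    have := Finset.inf'_le W.z hx
    simpa using this

open Classical in
/-- a chosen extension -/
def xt (S : Finset W) (f : PP × ℝ → PP) : PP × ℝ → PP :=
  if h : ∃ Φ : PP × ℝ → PP, Good Φ (Sx S ×ˢ Icc (0 : ℝ) 1) ∧ EqOn Φ f (Bd S) then h.choose else f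

lemma xt_spec {S : Finset W} (hS : S.Nonempty) {f : PP × ℝ → PP} (hf : Good f (Bd S)) :
    Good (xt S f) (Sx S ×ˢ Icc (0 : ℝ) 1) ∧ EqOn (xt S f) f (Bd S) := by
  have h := exists_ext S hS f hf
  simp only [xt, h, dite_true]
  exact h.choose_spec

open Classical in
/-- the deformation on the skeleta -/
def Ps : ℕ → PP × ℝ → PP
  | 0 => fun y => if y.2 = 1 then ln (ht y.1) else y.1
  | k + 1 => fun y => if y.2 = 0 ∨ y.2 = 1 ∨ (sp y.1).card ≤ k then Ps k y else
      T (mz (sp y.1)) (xt ((sp y.1).image (tr (-mz (sp y.1)))) (Ps k)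
        (T (-mz (sp y.1)) y.1, y.2))

lemma Ps_zero (k : ℕ) (p : PP) : Ps k (p, 0) = p := by
  induction k with
  | zero => simp [Ps]
  | succ k ih => simp [Ps, ih]

lemma Ps_one (k : ℕ) (p : PP) : Ps k (p, 1) = ln (ht p) := by
  induction k with
  | zero => simp [Ps]
  | succ k ih => simp [Ps, ih]

lemma Ps_T (k : ℕ) {S : Finset W} {p : PP} (hp : p ∈ Sx S) (m : ℤ) (s : ℝ) :
    Ps k (T m p, s) = T m (Ps k (p, s)) := by
  induction k with
  | zero =>
    simp only [Ps]
    split_ifs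
    · rw [ht_T hp, ln_add]
    · rfl
  | succ k ih =>
    simp only [Ps, sp_T hp, card_image_tr]
    split_ifs
    · exact ih
    · rw [mz_image (Sx_nonempty (mem_Sx_sp hp)), T_T, T_T, Finset.image_image]
      have e1 : tr (-(mz (sp p) + m)) ∘ tr m = tr (-mz (sp p)) := by
        ext1 x
        simp only [Function.comp, tr_tr]
        congr 1
        ring
      have e2 : -(mz (sp p) + m) + m = -mz (sp p) := by ring
      rw [e1, e2, add_comm]

lemma Ps_stable {k l : ℕ} {y : PP × ℝ} (h : (sp y.1).card ≤ k) (hl : k ≤ l) : Ps l y = Ps k y := by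
  induction l, hl using Nat.le_induction with
  | base => rfl
  | succ l hl ih =>
    have : (sp y.1).card ≤ l := h.trans hl
    simp only [Ps, this, or_true, if_true, ih]

lemma Ps_good (k : ℕ) : ∀ S : Finset W, Clq S → S.card ≤ k →
    Good (Ps k) (Sx S ×ˢ Icc (0 : ℝ) 1) := by
  induction k with
  | zero =>
    intro S _ h
    have : Sx S ×ˢ Icc (0 : ℝ) 1 = ∅ := by
      rw [eq_empty_iff_forall_notMem]
      intro y hy
      have := (Sx_nonempty hy.1).card_pos
      omega
    rw [this]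
    exact ⟨continuousOn_empty _, ∅, mapsTo_empty _ _⟩
  | succ k ih =>
    intro S hS h
    rcases Nat.lt_or_ge k S.card with hk | hk
    swap
    · refine (ih S hS hk).congr fun y hy => ?_
      exact Ps_stable ((Finset.card_le_card (sp_subset hy.1)).trans hk) (Nat.le_succ k)
    have hne : S.Nonempty := Finset.card_pos.mp (by omega)
    set m := mz S with hm
    set S0 := S.image (tr (-m)) with hS0
    have hc0 : Clq S0 := hS.image _
    have hcard : S0.card = k + 1 := by rw [hS0, card_image_tr]; omega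
    have hB : Good (Ps k) (Bd S0) := by
      have g1 : Good (Ps k) (⋃ x ∈ S0, Sx (S0.erase x) ×ˢ Icc (0 : ℝ) 1) :=
        Good.biUnion S0 _ (fun x hx => ih _ (hc0.mono (Finset.erase_subset _ _))
          (by rw [Finset.card_erase_of_mem hx]; omega))
          (fun x _ => (isClosed_Sx _).prod isClosed_Icc)
      have g2 : Good (Ps k) (Sx S0 ×ˢ {(0 : ℝ)}) := by
        refine Good.congr (f := Prod.fst) ⟨continuousOn_fst, S0, fun y hy =>
          ⟨S0, subset_rfl, hc0, hy.1⟩⟩ ?_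
        rintro ⟨p, s⟩ ⟨_, hs⟩
        obtain rfl : s = 0 := hs
        exact Ps_zero k p
      have g3 : Good (Ps k) (Sx S0 ×ˢ {(1 : ℝ)}) := by
        refine Good.congr ((ln_ht_good S0).comp (u := Prod.fst) continuousOn_fst
          (fun y hy => hy.1)) ?_
        rintro ⟨p, s⟩ ⟨_, hs⟩
        obtain rfl : s = 1 := hs
        exact Ps_one k p
      refine (g1.union (g2.union g3 ((isClosed_Sx _).prod isClosed_singleton)
        ((isClosed_Sx _).prod isClosed_singleton))
        (isClosed_biUnion_finset fun x _ => (isClosed_Sx _).prod isClosed_Icc)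
        (((isClosed_Sx _).prod isClosed_singleton).union
          ((isClosed_Sx _).prod isClosed_singleton))).mono ?_
      rintro y ⟨hy, ⟨x, hx, h0⟩ | h0 | h0⟩
      · left
        simp only [mem_iUnion]
        refine ⟨x, hx, Sx_of_vanish hy.1 fun z hz => ?_, hy.2⟩
        by_cases hzx : z = x
        · rw [hzx, h0]
        · exact hy.1.2.1 z (fun hz' => hz (Finset.mem_erase.mpr ⟨hzx, hz'⟩))
      · exact Or.inr (Or.inl ⟨hy.1, h0⟩)
      · exact Or.inr (Or.inr ⟨hy.1, h0⟩)
    obtain ⟨hg, he⟩ := xt_spec (hne.image _) hB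
    have hu : ContinuousOn (fun y : PP × ℝ => (T (-m) y.1, y.2)) (Sx S ×ˢ Icc (0 : ℝ) 1) := by
      have := continuous_T (-m)
      fun_prop
    have hmap : MapsTo (fun y : PP × ℝ => (T (-m) y.1, y.2)) (Sx S ×ˢ Icc (0 : ℝ) 1)
        (Sx S0 ×ˢ Icc (0 : ℝ) 1) := fun y hy => ⟨T_mem _ hy.1, hy.2⟩
    refine ((hg.comp hu hmap).T m).congr ?_
    rintro ⟨p, s⟩ hy
    have hp : p ∈ Sx S := hy.1
    by_cases hc : s = 0 ∨ s = 1 ∨ (sp p).card ≤ k
    · have hb : (T (-m) p, s) ∈ Bd S0 := by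
        refine ⟨hmap hy, ?_⟩
        rcases hc with hc | hc | hc
        · exact Or.inr (Or.inl hc)
        · exact Or.inr (Or.inr hc)
        · left
          obtain ⟨x, hx, hx'⟩ := Finset.exists_mem_notMem_of_card_lt_card
            (lt_of_le_of_lt hc hk)
          refine ⟨tr (-m) x, Finset.mem_image_of_mem _ hx, ?_⟩
          simp only [T_tr]
          by_contra h0
          exact hx' ((mem_sp hp).mpr h0)
      simp only [Ps, hc, if_true, Function.comp]
      rw [he hb, Ps_T k hp, T_T]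
      simp
    · have e : sp p = S := by
        apply Finset.eq_of_subset_of_card_le (sp_subset hp)
        push Not at hc
        omega
      simp only [Ps, Function.comp]
      rw [if_neg hc, e]

/-- the equivariant deformation -/
def Psi (y : PP × ℝ) : PP := Ps (sp y.1).card y

lemma Psi_zero (p : PP) : Psi (p, 0) = p := Ps_zero _ p

lemma Psi_one (p : PP) : Psi (p, 1) = ln (ht p) := Ps_one _ p

lemma Psi_T {S : Finset W} {p : PP} (hp : p ∈ Sx S) (m : ℤ) (s : ℝ) :
    Psi (T m p, s) = T m (Psi (p, s)) := by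
  simp only [Psi, sp_T hp, card_image_tr, Ps_T _ hp]

lemma Psi_good {S : Finset W} (hS : Clq S) : Good Psi (Sx S ×ˢ Icc (0 : ℝ) 1) :=
  (Ps_good S.card S hS le_rfl).congr fun _ hy =>
    (Ps_stable le_rfl (Finset.card_le_card (sp_subset hy.1))).symm

end

end Pool.Agent.P.MP_510dd6_gt
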