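import Pool.Agent.P.MP_510dd6_gt.Defs

/-!
Characteristic maps and the universal property of the geometric realization.
-/

namespace Pool.Agent.P.MP_510dd6_gt

open CategoryTheory Opposite

noncomputable section

/-- characteristic map of a simplex -/
def chr (X : SSet.{0}) (n : SimplexCategory) (σ : X.obj (op n)) :
    C(stdSimplex ℝ (Fin (n.len + 1)), SSet.toTop.obj X) :=
  TopCat.toSSetObjEquiv _ (op n) ((sSetTopAdj.unit.app X).app (op n) σ)

lemma chr_nat (X : SSet.{0}) {m n : SimplexCategory} (f : m ⟶ n) (σ : X.obj (op n))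
    (p : stdSimplex ℝ (Fin (m.len + 1))) :
    chr X m (X.map f.op σ) p = chr X n σ (stdSimplex.map f p) := by
  unfold chr
  rw [← TopCat.toSSetObjEquiv_naturality_apply]
  congr 2
  exact ConcreteCategory.congr_hom ((sSetTopAdj.unit.app X).naturality f.op) σ

/-- a compatible family of maps on simplices as a simplicial map -/
def famHom (X : SSet.{0}) (Y : Type) [TopologicalSpace Y]
    (h : ∀ n : SimplexCategory, X.obj (op n) → C(stdSimplex ℝ (Fin (n.len + 1)), Y))
    (hh : ∀ (m n : SimplexCategory) (f : m ⟶ n) (σ : X.obj (op n)) p,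
      h m (X.map f.op σ) p = h n σ (stdSimplex.map f p)) :
    X ⟶ TopCat.toSSet.obj (TopCat.of Y) where
  app n := TypeCat.ofHom fun σ => (TopCat.toSSetObjEquiv (TopCat.of Y) n).symm (h n.unop σ)
  naturality n m f := by
    ext σ
    apply (TopCat.toSSetObjEquiv (TopCat.of Y) m).injective
    ext p
    exact hh m.unop n.unop f.unop σ p

/-- the map out of the realization given by a compatible family -/
def desc (X : SSet.{0}) (Y : Type) [TopologicalSpace Y]
    (h : ∀ n : SimplexCategory, X.obj (op n) → C(stdSimplex ℝ (Fin (n.len + 1)), Y))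
    (hh : ∀ (m n : SimplexCategory) (f : m ⟶ n) (σ : X.obj (op n)) p,
      h m (X.map f.op σ) p = h n σ (stdSimplex.map f p)) :
    C(SSet.toTop.obj X, Y) :=
  ((sSetTopAdj.homEquiv X (TopCat.of Y)).symm (famHom X Y h hh)).hom

lemma homEquiv_chr (X : SSet.{0}) (Y : TopCat.{0}) (u : SSet.toTop.obj X ⟶ Y)
    (n : SimplexCategory) (σ : X.obj (op n)) (p : stdSimplex ℝ (Fin (n.len + 1))) :
    TopCat.toSSetObjEquiv Y (op n) ((sSetTopAdj.homEquiv X Y u).app (op n) σ) p =
      u.hom (chr X n σ p) := by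
  rw [Adjunction.homEquiv_unit]
  rfl

lemma desc_chr (X : SSet.{0}) (Y : Type) [TopologicalSpace Y]
    (h : ∀ n : SimplexCategory, X.obj (op n) → C(stdSimplex ℝ (Fin (n.len + 1)), Y))
    (hh : ∀ (m n : SimplexCategory) (f : m ⟶ n) (σ : X.obj (op n)) p,
      h m (X.map f.op σ) p = h n σ (stdSimplex.map f p))
    (n : SimplexCategory) (σ : X.obj (op n)) (p : stdSimplex ℝ (Fin (n.len + 1))) :
    desc X Y h hh (chr X n σ p) = h n σ p := by
  unfold desc
  rw [← homEquiv_chr, Equiv.apply_symm_apply]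
  rfl

lemma real_ext (X : SSet.{0}) (Y : Type) [TopologicalSpace Y] (u v : C(SSet.toTop.obj X, Y))
    (h : ∀ n σ p, u (chr X n σ p) = v (chr X n σ p)) : u = v := by
  have : (TopCat.ofHom u : SSet.toTop.obj X ⟶ TopCat.of Y) = TopCat.ofHom v := by
    apply (sSetTopAdj.homEquiv X (TopCat.of Y)).injective
    ext n σ
    apply (TopCat.toSSetObjEquiv (TopCat.of Y) n).injective
    ext p
    exact (homEquiv_chr X _ _ n.unop σ p).trans ((h _ _ _).trans (homEquiv_chr X _ _ n.unop σ p).symm)
  exact congrArg TopCat.Hom.hom this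

/-- Two maps out of the realization are homotopic as soon as there is a compatible family of
homotopies on the simplices. -/
lemma homotopic_of_family (X : SSet.{0}) (Y : Type) [TopologicalSpace Y]
    (u v : C(SSet.toTop.obj X, Y))
    (h : ∀ n : SimplexCategory, X.obj (op n) → stdSimplex ℝ (Fin (n.len + 1)) × unitInterval → Y)
    (hc : ∀ n σ, Continuous (h n σ))
    (hh : ∀ (m n : SimplexCategory) (f : m ⟶ n) (σ : X.obj (op n)) p s,
      h m (X.map f.op σ) (p, s) = h n σ (stdSimplex.map f p, s))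
    (h0 : ∀ n σ p, h n σ (p, 0) = u (chr X n σ p))
    (h1 : ∀ n σ p, h n σ (p, 1) = v (chr X n σ p)) : u.Homotopic v := by
  let H : C(SSet.toTop.obj X, C(unitInterval, Y)) :=
    desc X _ (fun n σ => ContinuousMap.curry ⟨h n σ, hc n σ⟩) (fun m n f σ p => by
      ext s
      exact hh m n f σ p s)
  have hH : ∀ n σ p s, H (chr X n σ p) s = h n σ (p, s) := by
    intro n σ p s
    simp only [H, desc_chr]
    rfl
  have e0 : (⟨fun x => H x 0, by fun_prop⟩ : C(SSet.toTop.obj X, Y)) = u :=
    real_ext X Y _ _ (fun n σ p => (hH n σ p 0).trans (h0 n σ p))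
  have e1 : (⟨fun x => H x 1, by fun_prop⟩ : C(SSet.toTop.obj X, Y)) = v :=
    real_ext X Y _ _ (fun n σ p => (hH n σ p 1).trans (h1 n σ p))
  refine ⟨⟨⟨fun z => H z.2 z.1, by fun_prop⟩, fun x => ?_, fun x => ?_⟩⟩
  · exact DFunLike.congr_fun e0 x
  · exact DFunLike.congr_fun e1 x

end

end Pool.Agent.P.MP_510dd6_gt
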