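import Pool.Agent.P.MP_510dd6_gt.Psi
import Pool.Agent.P.MP_510dd6_gt.Real

/-!
Points of the realization given by tuples indexed by finite linear orders.
-/

namespace Pool.Agent.P.MP_510dd6_gt

open Set CategoryTheory Opposite

noncomputable section

/-- the simplicial set of the Heisenberg group -/
abbrev EE : SSet.{0} := EcomSSet Heis

/-- its realization -/
abbrev RE : Type := SSet.toTop.obj EE

/-- `q` is the push-forward of `p` along `f` -/
def IsPush {ι κ : Type} [Fintype ι] [Fintype κ] (f : ι → κ) (p : ι → ℝ) (q : κ → ℝ) : Prop :=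
  ∀ u : κ → ℝ, ∑ k, q k * u k = ∑ i, p i * u (f i)

lemma isPush_map {ι κ : Type} [Fintype ι] [Fintype κ] (f : ι → κ) (p : stdSimplex ℝ ι) :
    IsPush f p (stdSimplex.map f p) := by
  classical
  intro u
  simp only [stdSimplex.map_coe, FunOnFinite.linearMap_apply_apply, Finset.sum_mul]
  rw [← Finset.sum_fiberwise Finset.univ f (fun i => p i * u (f i))]
  refine Finset.sum_congr rfl fun k _ => Finset.sum_congr rfl fun i hi => ?_
  rw [(Finset.mem_filter.mp hi).2]

lemma IsPush.unique {ι κ : Type} [Fintype ι] [Fintype κ] {f : ι → κ} {p : ι → ℝ} {q q' : κ → ℝ}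
    (h : IsPush f p q) (h' : IsPush f p q') : q = q' := by
  classical
  funext k
  have := (h (Pi.single k 1)).trans (h' (Pi.single k 1)).symm
  simpa [Pi.single_apply] using this

lemma IsPush.smul {ι κ : Type} [Fintype ι] [Fintype κ] {f : ι → κ} {p : ι → ℝ} {q : κ → ℝ}
    (h : IsPush f p q) (s : ℝ) : IsPush f (fun i => s * p i) (fun k => s * q k) := by
  intro u
  simp only [mul_assoc, ← Finset.mul_sum, h u]

lemma IsPush.cmb {ι κ : Type} [Fintype ι] [Fintype κ] {f : ι → κ} {p : ι → ℝ} {q : κ → ℝ}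
    (h : IsPush f p q) (v : κ → W) :
    cmb Finset.univ v q = cmb Finset.univ (fun i => v (f i)) p := by
  ext x
  simp only [MP_510dd6_gt.cmb, Finset.sum_apply, Pi.smul_apply, smul_eq_mul]
  exact h (fun k => dl (v k) x)

lemma InAbelianCoset.comp {G : Type} [Group G] {ι κ : Type} {τ : κ → G} (h : InAbelianCoset τ)
    (f : ι → κ) : InAbelianCoset (fun i => τ (f i)) := by
  obtain ⟨g, A, hA, h⟩ := h
  exact ⟨g, A, hA, fun i => h _⟩

/-- enumeration of a finite linear order -/
def eqv (ι : Type) [Fintype ι] [LinearOrder ι] [Nonempty ι] :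
    Fin (Fintype.card ι - 1 + 1) ≃o ι :=
  monoEquivOfFin ι (by have := Fintype.card_pos (α := ι); omega)

/-- characteristic map of a tuple indexed by a finite linear order -/
def chi {ι : Type} [Fintype ι] [LinearOrder ι] [Nonempty ι] (τ : ι → Heis)
    (hτ : InAbelianCoset τ) (p : stdSimplex ℝ ι) : RE :=
  chr EE (SimplexCategory.mk (Fintype.card ι - 1)) ⟨fun i => τ (eqv ι i), hτ.comp _⟩
    (stdSimplex.map (eqv ι).symm p)

lemma continuous_chi {ι : Type} [Fintype ι] [LinearOrder ι] [Nonempty ι] (τ : ι → Heis)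
    (hτ : InAbelianCoset τ) : Continuous (chi τ hτ) :=
  (chr EE (SimplexCategory.mk (Fintype.card ι - 1)) ⟨fun i => τ (eqv ι i), hτ.comp _⟩).continuous.comp
    (stdSimplex.continuous_map _)

lemma chr_eq_chi {ι : Type} [Fintype ι] [LinearOrder ι] [Nonempty ι] (τ : ι → Heis)
    (hτ : InAbelianCoset τ) (n : SimplexCategory) (f : Fin (n.len + 1) → ι) (hf : Monotone f)
    (q : stdSimplex ℝ (Fin (n.len + 1))) :
    chr EE n ⟨fun i => τ (f i), hτ.comp _⟩ q = chi τ hτ (stdSimplex.map f q) := by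
  let φ : n ⟶ SimplexCategory.mk (Fintype.card ι - 1) :=
    SimplexCategory.Hom.mk ⟨fun i => (eqv ι).symm (f i), (eqv ι).symm.monotone.comp hf⟩
  have h := chr_nat EE φ ⟨fun i => τ (eqv ι i), hτ.comp _⟩ q
  unfold chi
  rw [stdSimplex.map_comp_apply]
  refine Eq.trans ?_ h
  congr 2
  apply Subtype.ext
  funext i
  change τ (f i) = τ (eqv ι ((eqv ι).symm (f i)))
  simp

lemma chi_nat {ι κ : Type} [Fintype ι] [LinearOrder ι] [Nonempty ι] [Fintype κ] [LinearOrder κ]
    [Nonempty κ] (τ : κ → Heis) (hτ : InAbelianCoset τ) (f : ι → κ) (hf : Monotone f)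
    (p : stdSimplex ℝ ι) :
    chi (fun i => τ (f i)) (hτ.comp f) p = chi τ hτ (stdSimplex.map f p) := by
  have h := chr_eq_chi τ hτ (SimplexCategory.mk (Fintype.card ι - 1)) (fun i => f (eqv ι i))
    (hf.comp (eqv ι).monotone) (stdSimplex.map (eqv ι).symm p)
  refine h.trans ?_
  rw [stdSimplex.map_comp_apply]
  congr 2
  funext i
  simp

lemma nonempty_of_mem {ι : Type} [Fintype ι] {p : ι → ℝ} (hp : p ∈ stdSimplex ℝ ι) :
    Nonempty ι := by
  by_contra h
  rw [not_nonempty_iff] at h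
  have := hp.2
  simp at this

/-- a base point -/
def base : RE :=
  chi (fun _ : Fin 1 => (1 : Heis)) (valid_of_adj (fun _ => ⟨1, 0⟩) (fun _ _ => adj_refl _))
    (stdSimplex.vertex 0)

open Classical in
/-- the point of the realization with given vertices in the cover and weights -/
def pt {ι : Type} [Fintype ι] [LinearOrder ι] (τ : ι → W) (p : ι → ℝ) : RE :=
  if h : (∀ i j, adj (τ i) (τ j)) ∧ p ∈ stdSimplex ℝ ι then
    @chi ι _ _ (nonempty_of_mem h.2) (fun i => (τ i).g) (valid_of_adj τ h.1) ⟨p, h.2⟩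
  else base

lemma pt_eq {ι : Type} [Fintype ι] [LinearOrder ι] [Nonempty ι] {τ : ι → W}
    (h : ∀ i j, adj (τ i) (τ j)) (p : stdSimplex ℝ ι) :
    pt τ p = chi (fun i => (τ i).g) (valid_of_adj τ h) p := by
  have : (∀ i j, adj (τ i) (τ j)) ∧ (p : ι → ℝ) ∈ stdSimplex ℝ ι := ⟨h, p.2⟩
  unfold pt
  rw [dif_pos this]
  rfl

lemma continuousOn_pt {ι : Type} [Fintype ι] [LinearOrder ι] {τ : ι → W}
    (h : ∀ i j, adj (τ i) (τ j)) : ContinuousOn (pt τ) (stdSimplex ℝ ι) := by
  rcases isEmpty_or_nonempty ι with hι | hι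
  · rw [stdSimplex_of_isEmpty_index]
    exact continuousOn_empty _
  · rw [continuousOn_iff_continuous_domRestrict]
    exact (continuous_chi _ (valid_of_adj τ h)).congr (fun p => (pt_eq h p).symm)

lemma pt_nat {ι κ : Type} [Fintype ι] [LinearOrder ι] [Fintype κ] [LinearOrder κ]
    {τ' : ι → W} {τ : κ → W} (f : ι → κ) (hf : Monotone f) (hg : ∀ i, (τ' i).g = (τ (f i)).g)
    (h' : ∀ i j, adj (τ' i) (τ' j)) (h : ∀ i j, adj (τ i) (τ j)) {p : ι → ℝ}
    (hp : p ∈ stdSimplex ℝ ι) {q : κ → ℝ} (hq : IsPush f p q) : pt τ' p = pt τ q := by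
  have := nonempty_of_mem hp
  have : Nonempty κ := Nonempty.map f this
  have e : q = stdSimplex.map f ⟨p, hp⟩ := hq.unique (isPush_map f ⟨p, hp⟩)
  rw [e, pt_eq h, ← chi_nat _ _ f hf]
  refine (pt_eq h' ⟨p, hp⟩).trans ?_
  congr 1
  funext i
  exact hg i

lemma restrict_mem {S : Finset W} {p : PP} (hp : p ∈ Sx S) :
    (fun x : S => p x) ∈ stdSimplex ℝ S :=
  ⟨fun x => hp.1 x, by rw [Finset.sum_coe_sort S p, hp.2.2]⟩

lemma Clq.val {S : Finset W} (hS : Clq S) (i j : S) : adj (i : W) (j : W) := hS i i.2 j j.2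

lemma cmb_val {S : Finset W} {p : PP} (hp : p ∈ Sx S) :
    cmb Finset.univ (Subtype.val : S → W) (fun x => p x) = p := by
  ext y
  simp only [cmb, Finset.sum_apply, Pi.smul_apply, smul_eq_mul]
  rw [Finset.sum_coe_sort S (fun x => p x * dl x y), Finset.sum_eq_single y]
  · simp [dl]
  · intro x _ hx
    simp [dl, Pi.single_eq_of_ne hx.symm]
  · intro hy
    simp [hp.2.1 y hy]

lemma isPush_tr {S' S : Finset W} {p : PP} (hp : p ∈ Sx S') (k : ℤ)
    (h : ∀ x ∈ S', tr k x ∈ S) :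
    IsPush (fun x : S' => (⟨tr k x, h x x.2⟩ : S)) (fun x => p x) (fun x => T k p x) := by
  classical
  intro u
  let U : W → ℝ := fun x => if hx : x ∈ S then u ⟨x, hx⟩ else 0
  have e1 : ∑ x : S, T k p x * u x = ∑ x ∈ S, T k p x * U x := by
    rw [← Finset.sum_coe_sort S]
    exact Finset.sum_congr rfl fun x _ => by simp [U]
  have e2 : ∑ x : S', p x * u ⟨tr k x, h x x.2⟩ = ∑ x ∈ S', p x * U (tr k x) := by
    rw [← Finset.sum_coe_sort S']
    exact Finset.sum_congr rfl fun x _ => by simp [U, h x x.2]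
  have hsub : S'.image (tr k) ⊆ S := Finset.image_subset_iff.mpr h
  rw [e1, e2, sum_eq_of_vanish (T k p) U (Sx_mono hsub (T_mem k hp)).2.1 (T_mem k hp).2.1,
    Finset.sum_image (fun x _ y _ h => tr_injective k h)]
  simp

lemma pt_tr {S' S : Finset W} (hS' : Clq S') (hS : Clq S) {p : PP} (hp : p ∈ Sx S') (k : ℤ)
    (h : ∀ x ∈ S', tr k x ∈ S) :
    pt (Subtype.val : S' → W) (fun x => p x) = pt (Subtype.val : S → W) (fun x => T k p x) :=
  pt_nat (τ' := Subtype.val) (τ := Subtype.val) (fun x : S' => (⟨tr k x, h x x.2⟩ : S))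
    (fun _ _ hxy => tr_mono k hxy) (fun _ => rfl)
    hS'.val hS.val (restrict_mem hp) (isPush_tr hp k h)

/-- the map from the cover to the realization -/
def JJ (p : PP) : RE := pt (Subtype.val : sp p → W) (fun x => p x)

lemma JJ_eq {S : Finset W} (hS : Clq S) {p : PP} (hp : p ∈ Sx S) :
    JJ p = pt (Subtype.val : S → W) (fun x => p x) := by
  have := pt_tr (hS.mono (sp_subset hp)) hS (mem_Sx_sp hp) 0
    (fun x hx => by simpa using sp_subset hp hx)
  simpa [JJ] using this

lemma JJ_T {S : Finset W} (hS : Clq S) {p : PP} (hp : p ∈ Sx S) (k : ℤ) : JJ (T k p) = JJ p := by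
  rw [JJ_eq hS hp, JJ_eq (hS.image k) (T_mem k hp)]
  exact (pt_tr hS (hS.image k) hp k (fun x hx => Finset.mem_image_of_mem _ hx)).symm

lemma continuousOn_JJ {S : Finset W} (hS : Clq S) : ContinuousOn JJ (Sx S) := by
  refine ContinuousOn.congr (f := fun p : PP => pt (Subtype.val : S → W) (fun x => p x)) ?_
    (fun p hp => JJ_eq hS hp)
  exact (continuousOn_pt hS.val).comp (f := fun (p : PP) (x : S) => p x) (by fun_prop)
    (fun p hp => restrict_mem hp)

lemma continuousOn_KF {Y : Type} [TopologicalSpace Y] {φ : PP → Y}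
    (h : ∀ S, Clq S → ContinuousOn φ (Sx S)) (F : Finset W) : ContinuousOn φ (KF F) := by
  classical
  have e : KF F = ⋃ S : (F.powerset.filter Clq), Sx S := by
    ext p
    simp only [KF, mem_ofPred_eq, mem_iUnion]
    constructor
    · rintro ⟨S, h1, h2, h3⟩
      exact ⟨⟨S, Finset.mem_filter.mpr ⟨Finset.mem_powerset.mpr h1, h2⟩⟩, h3⟩
    · rintro ⟨⟨S, hS⟩, h3⟩
      exact ⟨S, Finset.mem_powerset.mp (Finset.mem_filter.mp hS).1, (Finset.mem_filter.mp hS).2, h3⟩
  rw [e]
  exact (locallyFinite_of_finite _).continuousOn_iUnion (fun S => isClosed_Sx _)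
    (fun S => h _ (Finset.mem_filter.mp S.2).2)

lemma Good.cont {A Y : Type} [TopologicalSpace A] [TopologicalSpace Y] {f : A → PP} {D : Set A}
    (hf : Good f D) {φ : PP → Y} (h : ∀ S, Clq S → ContinuousOn φ (Sx S)) :
    ContinuousOn (fun a => φ (f a)) D := by
  obtain ⟨h1, F, hF⟩ := hf
  exact (continuousOn_KF h F).comp h1 hF

lemma continuous_comp_ln {Y : Type} [TopologicalSpace Y] {φ : PP → Y}
    (h : ∀ S, Clq S → ContinuousOn φ (Sx S)) : Continuous (fun t => φ (ln t)) := by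
  rw [continuous_iff_continuousAt]
  intro t
  exact ((ln_good (t - 1) (t + 1)).cont h).continuousAt (Icc_mem_nhds (by linarith) (by linarith))

end

end Pool.Agent.P.MP_510dd6_gt
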